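import Pool.Agent.Lib.MP_6b2d39_ag.CoreC

/-!
The demands of the light points in the reduction to three heavy points.
-/

set_option autoImplicit false

namespace Pool.Agent.Lib.MP_6b2d39_agArr

open Pool.Agent.Lib.MP_6b2d39_ag

/-- capacity left for the light points in the row `b` of the triangle of size `N` when the two
heavy points `a₂`, `a₃` use `a - b` cells of the row `b`; `w` rows get one more cell -/
def demF (N a₂ a₃ w b : ℕ) : ℤ :=
  (N : ℤ) - b - ((a₂ - b : ℕ) : ℤ) - ((a₃ - b : ℕ) : ℤ) + (if b < w then 1 else 0)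

theorem two_sum_id (b : ℕ) : 2 * ∑ r ∈ Finset.range (b + 1), (r : ℤ) = b * (b + 1) := by
  induction b with
  | zero => simp
  | succ b ih =>
    rw [Finset.sum_range_succ, mul_add, ih]
    push_cast
    ring

theorem Lam_affine (b : ℕ) (c : ℤ) : Lam b (fun r => c + (r : ℤ)) = 0 := by
  unfold Lam
  beta_reduce
  have h := two_sum_id b
  rw [Finset.sum_add_distrib, mul_add 2, h]
  simp only [Finset.sum_const, Finset.card_range, nsmul_eq_mul]
  push_cast
  ring

theorem Lam_neg (b : ℕ) (c : ℕ → ℤ) : Lam b (fun r => - c r) = - Lam b c := by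
  unfold Lam
  rw [Finset.sum_neg_distrib]
  ring

theorem two_sum_demF_aux (N a H : ℕ) (hH : H = N - a) (ha : a ≤ N) :
    ∑ b ∈ Finset.range H, ((N : ℤ) - b) + ((a + 1).choose 2 : ℤ) = ((N + 1).choose 2 : ℤ) := by
  subst hH
  obtain ⟨e, rfl⟩ := Nat.exists_eq_add_of_le ha
  rw [Nat.add_sub_cancel_left]
  clear ha
  have h1 : ∀ k : ℕ, ((k + 1).choose 2 : ℤ) * 2 = (k + 1) * k := by
    intro k
    have h := Nat.choose_two_right (k + 1)
    have h2 : 2 ∣ (k + 1) * (k + 1 - 1) := by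
      rw [Nat.add_sub_cancel, mul_comm]
      exact (Nat.even_mul_succ_self k).two_dvd
    have h3 : (k + 1).choose 2 * 2 = (k + 1) * (k + 1 - 1) := by
      rw [h]
      exact Nat.div_mul_cancel h2
    rw [Nat.add_sub_cancel] at h3
    exact_mod_cast h3
  have h4 : ∀ e : ℕ, 2 * ∑ b ∈ Finset.range e, (((a + e : ℕ) : ℤ) - b) =
      2 * (a * e) + e * (e + 1) := by
    intro e
    rw [Finset.sum_sub_distrib, mul_sub]
    simp only [Finset.sum_const, Finset.card_range, nsmul_eq_mul]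
    rcases Nat.eq_zero_or_pos e with he | he
    · subst he; simp
    · obtain ⟨e, rfl⟩ := Nat.exists_eq_add_of_le he
      rw [show 1 + e = e + 1 from by ring, two_sum_id]
      push_cast
      ring
  have h5 := h4 e
  have h6 := h1 a
  have h7 := h1 (a + e)
  push_cast at h5 h6 h7 ⊢
  linarith

theorem demF_props {N a₁ a₂ a₃ w M S A H : ℕ} (hM : 1 ≤ M) (hS : S = 9 * M ^ 2 + 2 * M)
    (hH : H = N - a₁) (hA : A = N - S + 1) (h2 : M ≤ a₂) (h3 : M ≤ a₃)
    (hred : a₁ + a₂ + a₃ + 1 ≤ N) (hbig : a₂ + a₃ + S ≤ N) (hw : w < M) :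
    2 * M + 1 ≤ A ∧ 2 * M + 1 ≤ H ∧ a₂ ≤ A ∧ a₃ ≤ A ∧ a₂ ≤ H ∧ a₃ ≤ H ∧
    (∀ b, A ≤ b + 1 → b + 1 < H → demF N a₂ a₃ w (b + 1) + 1 = demF N a₂ a₃ w b) ∧
    (∀ b, b + 1 < H → demF N a₂ a₃ w (b + 1) ≤ demF N a₂ a₃ w b + 1) ∧
    (∀ b < H, 1 ≤ demF N a₂ a₃ w b) ∧
    (∀ b < A, b < H → 9 * (M : ℤ) ^ 2 + 2 * M ≤ demF N a₂ a₃ w b) ∧
    (∀ b : ℕ, 1 ≤ b → b < M → Lam b (demF N a₂ a₃ w) ≤ 2 * b) ∧
    ∑ b ∈ Finset.range H, demF N a₂ a₃ w b + ((a₁ + 1).choose 2 : ℤ) + ((a₂ + 1).choose 2 : ℤ) +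
      ((a₃ + 1).choose 2 : ℤ) = ((N + 1).choose 2 : ℤ) + w := by
  have hS' : (S : ℤ) = 9 * (M : ℤ) ^ 2 + 2 * M := by
    rw [hS]; push_cast; ring
  refine ⟨by omega, by omega, by omega, by omega, by omega, by omega, ?_, ?_, ?_, ?_, ?_, ?_⟩
  · intro b hb1 hb2
    unfold demF
    rw [if_neg (by omega), if_neg (by omega)]
    omega
  · intro b hb
    unfold demF
    split_ifs <;> omega
  · intro b hb
    unfold demF
    split_ifs <;> omega
  · intro b hb1 hb2
    rw [← hS']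
    unfold demF
    split_ifs <;> omega
  · intro b hb1 hb2
    have h4 : Lam b (demF N a₂ a₃ w) =
        Lam b (fun r => (((N : ℤ) - a₂ - a₃ + 1) + (r : ℤ)) + -(if w ≤ r then (1 : ℤ) else 0)) := by
      apply Lam_congr
      intro r hr
      unfold demF
      split_ifs <;> omega
    rw [h4, Lam_add, Lam_affine, Lam_neg]
    have h5 := Lam_ind w b
    split_ifs at h5 <;> omega
  · unfold demF
    have h4 := two_sum_demF_aux N a₁ H hH (by omega)
    have h5 := sum_tsub_choose (show a₂ ≤ H by omega)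
    have h6 := sum_tsub_choose (show a₃ ≤ H by omega)
    have h7 : ∑ b ∈ Finset.range H, (if b < w then (1 : ℤ) else 0) = w := by
      rw [← Finset.sum_filter]
      have h8 : (Finset.range H).filter (fun b => b < w) = Finset.range w := by
        ext b
        simp only [Finset.mem_filter, Finset.mem_range]
        omega
      rw [h8]
      simp
    rw [Finset.sum_add_distrib, Finset.sum_sub_distrib, Finset.sum_sub_distrib, h7,
      ← Nat.cast_sum, ← Nat.cast_sum, h5, h6]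
    linarith

end Pool.Agent.Lib.MP_6b2d39_agArr
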