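import Pool.Agent.Lib.MP_6b2d39_agArr.Defs
import Pool.Agent.Lib.MP_6b2d39_ag.Ranks

/-!
Arrangement certificates from states `(t, i)` (task F of slot 4).
-/

set_option autoImplicit false

namespace Pool.Agent.Lib.MP_6b2d39_agArr

open Pool.Agent.Lib.MP_6b2d39_ag

theorem cert_of_states {ι : Type} {m : ι → ℕ} {J : Finset ι} {B : ℕ} {D : ℕ → ℤ} (t i : ι → ℕ)
    (ht : ∀ j ∈ J, t j < B ∧ i j ≤ t j)
    (hD : ∀ b < B, D b ≤ ∑ j ∈ J, ((m j - MP_6b2d39_ag.rk (t j) (i j) b : ℕ) : ℤ)) :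
    Cert m J B D := by
  obtain ⟨w, v, hwv⟩ := exists_weights B
  refine ⟨fun b => (w b : ℤ), fun j => (v (t j) (i j) : ℤ), fun b hb => (hD b hb).trans ?_⟩
  apply Finset.sum_le_sum
  intro j hj
  obtain ⟨h1, h2⟩ := ht j hj
  have key : MP_6b2d39_agArr.rk B (fun b => (w b : ℤ)) (v (t j) (i j) : ℤ) b ≤
      MP_6b2d39_ag.rk (t j) (i j) b := by
    unfold MP_6b2d39_agArr.rk
    rw [← Finset.card_range (MP_6b2d39_ag.rk (t j) (i j) b)]
    refine Finset.card_le_card_of_injOn (MP_6b2d39_ag.rk (t j) (i j)) ?_ ?_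
    · intro c hc
      rw [Finset.mem_coe, Finset.mem_filter, Finset.mem_range] at hc
      obtain ⟨hcB, hcb, hle⟩ := hc
      rw [Finset.mem_coe, Finset.mem_range]
      by_contra hcon
      rw [not_lt] at hcon
      rcases hcon.lt_or_eq with h | h
      · have h3 := hwv (t j) (i j) h1 h2 b hb c hcB h
        have h4 : (w c : ℤ) + (v (t j) (i j) : ℤ) * c ≤ (w b : ℤ) + (v (t j) (i j) : ℤ) * b := hle
        have h5 : w c + v (t j) (i j) * c ≤ w b + v (t j) (i j) * b := by exact_mod_cast h4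
        omega
      · exact hcb (rk_inj h2 h.symm)
    · intro c _ c' _ h
      exact rk_inj h2 h
  exact_mod_cast Nat.sub_le_sub_left key (m j)

theorem cert_mono {ι : Type} {m m' : ι → ℕ} {J : Finset ι} {B : ℕ} {D D' : ℕ → ℤ}
    (hm : ∀ j ∈ J, m' j ≤ m j) (hD : ∀ b < B, D b ≤ D' b) (h : Cert m' J B D') :
    Cert m J B D := by
  obtain ⟨e, p, h1⟩ := h
  refine ⟨e, p, fun b hb => (hD b hb).trans ((h1 b hb).trans ?_)⟩
  apply Finset.sum_le_sum
  intro j hj
  have := hm j hj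
  omega

end Pool.Agent.Lib.MP_6b2d39_agArr
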