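import Pool.Agent.Lib.MP_6b2d39_agArr.Defs
import Pool.Agent.Lib.MP_6b2d39_ag.RowSupp

/-!
Task L: the arrangement lemma, deduced from the row criterion `row_supp`.
-/

set_option autoImplicit false

namespace Pool.Agent.Lib.MP_6b2d39_agArr

open Pool.Agent.Lib.MP_6b2d39_ag

/-- the refined order of the rows: ties of `e b + p * b` are broken by `b` -/
private def th (n : ℕ) (e : ℕ → ℤ) (p : ℤ) (b : ℕ) : ℤ := ((n : ℤ) + 1) * (e b + p * b) + b

/-- rank for the refined order -/
private def rr (n : ℕ) (e : ℕ → ℤ) (p : ℤ) (b : ℕ) : ℕ :=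
  ((Finset.range n).filter fun c => th n e p c < th n e p b).card

private theorem th_inj {n : ℕ} {e : ℕ → ℤ} {p : ℤ} {b c : ℕ} (hb : b < n) (hc : c < n)
    (h : th n e p b = th n e p c) : b = c := by
  unfold th at h
  rcases lt_trichotomy (e b + p * b) (e c + p * c) with h1 | h1 | h1
  · have h2 : ((n : ℤ) + 1) * (e b + p * b + 1) ≤ ((n : ℤ) + 1) * (e c + p * c) :=
      mul_le_mul_of_nonneg_left (by omega) (by omega)
    rw [mul_add] at h2
    omega
  · rw [h1] at h
    omega
  · have h2 : ((n : ℤ) + 1) * (e c + p * c + 1) ≤ ((n : ℤ) + 1) * (e b + p * b) :=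
      mul_le_mul_of_nonneg_left (by omega) (by omega)
    rw [mul_add] at h2
    omega

private theorem le_of_th_lt {n : ℕ} {e : ℕ → ℤ} {p : ℤ} {b c : ℕ} (hb : b < n)
    (h : th n e p c < th n e p b) : c ≠ b ∧ e c + p * c ≤ e b + p * b := by
  constructor
  · rintro rfl
    exact lt_irrefl _ h
  · by_contra hne
    unfold th at h
    have h2 : ((n : ℤ) + 1) * (e b + p * b + 1) ≤ ((n : ℤ) + 1) * (e c + p * c) :=
      mul_le_mul_of_nonneg_left (by omega) (by omega)
    rw [mul_add] at h2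
    omega

private theorem rr_le_rk {n : ℕ} {e : ℕ → ℤ} {p : ℤ} {b : ℕ} (hb : b < n) :
    rr n e p b ≤ rk n e p b := by
  unfold rr rk
  apply Finset.card_le_card
  intro c hc
  rw [Finset.mem_filter] at hc ⊢
  exact ⟨hc.1, le_of_th_lt hb hc.2⟩

private theorem rr_mono {n : ℕ} {e : ℕ → ℤ} {p : ℤ} {b c : ℕ} (h : th n e p b ≤ th n e p c) :
    rr n e p b ≤ rr n e p c := by
  unfold rr
  apply Finset.card_le_card
  intro d hd
  rw [Finset.mem_filter] at hd ⊢
  exact ⟨hd.1, hd.2.trans_le h⟩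

private theorem rr_lt {n : ℕ} {e : ℕ → ℤ} {p : ℤ} {b c : ℕ} (hb : b < n)
    (h : th n e p b < th n e p c) : rr n e p b < rr n e p c := by
  unfold rr
  apply Finset.card_lt_card
  rw [Finset.ssubset_iff_of_subset]
  · refine ⟨b, ?_, ?_⟩
    · rw [Finset.mem_filter, Finset.mem_range]
      exact ⟨hb, h⟩
    · rw [Finset.mem_filter]
      exact fun h1 => lt_irrefl _ h1.2
  · intro d hd
    rw [Finset.mem_filter] at hd ⊢
    exact ⟨hd.1, hd.2.trans h⟩

private theorem exists_nat_weights {ι : Type} [Fintype ι] (n : ℕ) (e : ℕ → ℤ) (p : ι → ℤ) :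
    ∃ (w : ℕ → ℕ) (v : ι → ℕ) (C : ℤ), ∀ j, ∀ b < n,
      ((w b + v j * b : ℕ) : ℤ) = th n e (p j) b + C := by
  set A : ℤ := ∑ j, |((n : ℤ) + 1) * p j| with hA
  set C : ℤ := ∑ b ∈ Finset.range n, |((n : ℤ) + 1) * e b + b - A * b| with hC
  have h1 : ∀ j, 0 ≤ ((n : ℤ) + 1) * p j + A := by
    intro j
    have h2 : |((n : ℤ) + 1) * p j| ≤ A :=
      Finset.single_le_sum (f := fun j => |((n : ℤ) + 1) * p j|) (fun _ _ => abs_nonneg _)
        (Finset.mem_univ j)
    have h3 := neg_abs_le (((n : ℤ) + 1) * p j)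
    omega
  have h2 : ∀ b < n, 0 ≤ ((n : ℤ) + 1) * e b + b - A * b + C := by
    intro b hb
    have h2 : |((n : ℤ) + 1) * e b + b - A * b| ≤ C :=
      Finset.single_le_sum (f := fun b : ℕ => |((n : ℤ) + 1) * e b + b - A * b|)
        (fun _ _ => abs_nonneg _) (Finset.mem_range.2 hb)
    have h3 := neg_abs_le (((n : ℤ) + 1) * e b + b - A * b)
    omega
  refine ⟨fun b => (((n : ℤ) + 1) * e b + b - A * b + C).toNat,
    fun j => (((n : ℤ) + 1) * p j + A).toNat, C, ?_⟩
  intro j b hb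
  rw [Nat.cast_add, Nat.cast_mul, Int.toNat_of_nonneg (h1 j), Int.toNat_of_nonneg (h2 b hb)]
  unfold th
  ring

/-- the arrangement lemma -/
theorem good_of_cert {ι : Type} [Fintype ι] [DecidableEq ι] {m : ι → ℕ} {n : ℕ}
    (h : Cert m Finset.univ n fun b => (n : ℤ) - b) :
    Good ℂ n (fun i => Finset.Icc 1 (m i)) ∅ := by
  obtain ⟨e, p, h⟩ := h
  obtain ⟨w, v, C, hwv⟩ := exists_nat_weights n e p
  have hE : GoodE ℂ (fun b => Finset.range (n - b)) m := by
    apply row_supp n (fun b => Finset.range (n - b)) _ m w v (fun j b => rr n e (p j) b)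
    · intro j b hb c hc hbc
      rcases lt_trichotomy (th n e (p j) b) (th n e (p j) c) with h1 | h1 | h1
      · exact absurd hbc (rr_lt hb h1).ne
      · exact th_inj hb hc h1
      · exact absurd hbc (rr_lt hc h1).ne'
    · intro j b hb c hc hbc
      have h1 : th n e (p j) b < th n e (p j) c := by
        by_contra hne
        exact absurd (rr_mono (not_lt.1 hne)) (not_le.2 hbc)
      have h2 := hwv j b hb
      have h3 := hwv j c hc
      omega
    · intro b hb
      rw [Finset.card_range]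
      have h1 : (n : ℤ) - b ≤ ∑ j, ((m j - rk n e (p j) b : ℕ) : ℤ) := h b hb
      have h2 : ∑ j, ((m j - rk n e (p j) b : ℕ) : ℤ) ≤ ∑ j, ((m j - rr n e (p j) b : ℕ) : ℤ) := by
        apply Finset.sum_le_sum
        intro j _
        have := rr_le_rk (n := n) (e := e) (p := p j) hb
        omega
      have h3 : ((∑ j, (m j - rr n e (p j) b) : ℕ) : ℤ) = ∑ j, ((m j - rr n e (p j) b : ℕ) : ℤ) := by
        push_cast
        rfl
      omega
    · intro b hb
      rw [Nat.sub_eq_zero_of_le hb, Finset.range_zero]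
  obtain ⟨K, _, φ, x, y, hx, hy, H⟩ := hE
  refine ⟨K, _, φ, x, y, hx, ?_, ?_, ?_⟩
  · intro i hi
    exact absurd hi (Finset.notMem_empty i)
  · intro i _
    exact hy i
  · intro f hf hc
    apply H f _ hc
    intro a b hab
    apply hf
    rw [Finset.mem_range, not_lt] at hab
    omega

end Pool.Agent.Lib.MP_6b2d39_agArr
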