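import Pool.Agent.Lib.MP_6b2d39_agStd.CoreG
import Mathlib.Data.Fin.Tuple.Sort

set_option autoImplicit false

namespace Pool.Agent.Lib.MP_6b2d39_agArr

open Pool.Agent.Lib.MP_6b2d39_ag

/-- decreasing enumeration of a finite set of points -/
private theorem exists_enum {ι : Type} [DecidableEq ι] (m : ι → ℕ) (J : Finset ι) :
    ∃ e : Fin J.card ≃ J, Antitone fun k => m (e k) := by
  classical
  let e₀ : Fin J.card ≃ J := J.equivFin.symm
  let f : Fin J.card → ℕᵒᵈ := fun k => OrderDual.toDual (m (e₀ k))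
  refine ⟨(Tuple.sort f).trans e₀, ?_⟩
  have h := Tuple.monotone_sort f
  intro a b hab
  exact h hab

/-- `coreG` for a finite set of points, with integer demands -/
theorem coreG_finset {ι : Type} [DecidableEq ι] {m : ι → ℕ} {J : Finset ι} {M B : ℕ} (hM : 1 ≤ M)
    (hB : 2 * M + 1 ≤ B) (hm : ∀ j ∈ J, m j ≤ M) (D : ℕ → ℤ) (hpos : ∀ b < B, 1 ≤ D b)
    (hslope : ∀ b, b + 1 < B → D (b + 1) ≤ D b + 1)
    (hgap : ∀ b, b + 1 < B → 9 * (M : ℤ) ^ 2 + M + M * D (b + 1) ≤ M * D b + D (b + 1))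
    (htop : 8 * (M : ℤ) ≤ D (B - 1))
    (hconc : ∀ b : ℕ, 1 ≤ b → b < M → Lam b D ≤ 2 * b)
    (hs : ∑ b ∈ Finset.range B, D b = ∑ j ∈ J, ((m j + 1).choose 2 : ℤ)) :
    ∃ t i : ι → ℕ, (∀ j ∈ J, t j < B ∧ i j ≤ t j) ∧
      ∀ b < B, ∑ j ∈ J, ((m j - MP_6b2d39_ag.rk (t j) (i j) b : ℕ) : ℤ) = D b := by
  classical
  obtain ⟨e, he⟩ := exists_enum m J
  let μ : ℕ → ℕ := fun p => if h : p < J.card then m (e ⟨p, h⟩) else 0
  have hμe : ∀ k : Fin J.card, μ k = m (e k) := by
    intro k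
    simp [μ]
  let s : ℕ → ℕ := fun b => (D b).toNat
  have hsD : ∀ b < B, (s b : ℤ) = D b := by
    intro b hb
    have := hpos b hb
    simp only [s]
    omega
  have hanti : Antitone μ := by
    intro a b hab
    by_cases hb : b < J.card
    · have ha : a < J.card := lt_of_le_of_lt hab hb
      simp only [μ, hb, ha, dite_true]
      exact he (show (⟨a, ha⟩ : Fin J.card) ≤ ⟨b, hb⟩ from hab)
    · simp [μ, hb]
  have hμM : ∀ p, μ p ≤ M := by
    intro p
    by_cases hp : p < J.card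
    · simp only [μ, hp, dite_true]
      exact hm _ (e ⟨p, hp⟩).2
    · simp [μ, hp]
  have hsum : ∑ b ∈ Finset.range B, s b = ∑ p ∈ Finset.range J.card, (μ p + 1).choose 2 := by
    have h1 : (∑ p ∈ Finset.range J.card, (μ p + 1).choose 2) = ∑ j ∈ J, (m j + 1).choose 2 := by
      rw [Finset.sum_range, ← Finset.sum_coe_sort J, ← Equiv.sum_comp e]
      apply Finset.sum_congr rfl
      intro k _
      rw [hμe]
    rw [h1]
    zify
    rw [← hs]
    apply Finset.sum_congr rfl
    intro b hb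
    exact hsD b (Finset.mem_range.1 hb)
  obtain ⟨t, i, hti, hrow⟩ := coreG (n := J.card) hM hB μ hanti hμM s
    (fun b hb => by have := hpos b hb; have := hsD b hb; omega)
    (fun b hb => by
      have := hslope b hb
      have h1 := hsD b (by omega)
      have h2 := hsD (b + 1) hb
      omega)
    (fun b hb => by
      have h0 := hgap b hb
      rw [← hsD b (by omega), ← hsD (b + 1) hb] at h0
      exact_mod_cast h0)
    (by
      rw [← hsD (B - 1) (by omega)] at htop
      exact_mod_cast htop)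
    (fun b hb1 hbM => by
      have h0 := hconc b hb1 hbM
      rw [← Lam_congr (c := fun r => (s r : ℤ)) (c' := D) (b := b)
        (fun r hr => hsD r (by omega))] at h0
      exact h0)
    hsum
  refine ⟨fun j => if h : j ∈ J then t (e.symm ⟨j, h⟩) else 0,
    fun j => if h : j ∈ J then i (e.symm ⟨j, h⟩) else 0, ?_, ?_⟩
  · intro j hj
    simp only [hj, dite_true]
    exact hti _ (e.symm ⟨j, hj⟩).2
  · intro b hb
    rw [← hsD b hb, ← hrow b hb, Finset.sum_range, ← Finset.sum_coe_sort J, ← Equiv.sum_comp e]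
    push_cast
    apply Finset.sum_congr rfl
    intro k _
    rw [hμe]
    simp

/-- lowering the multiplicities until the total is `T + w` with `w < M` -/
theorem exists_reduce {ι : Type} [DecidableEq ι] {m : ι → ℕ} {J : Finset ι} {M T : ℕ} (hM : 1 ≤ M)
    (hm : ∀ j ∈ J, m j ≤ M) (hT : T ≤ ∑ j ∈ J, (m j + 1).choose 2) :
    ∃ (m' : ι → ℕ) (w : ℕ), (∀ j, m' j ≤ m j) ∧ (∀ j, j ∉ J → m' j = m j) ∧ w < M ∧
      ∑ j ∈ J, (m' j + 1).choose 2 = T + w := by
  obtain ⟨S, hS⟩ : ∃ S, S = ∑ j ∈ J, (m j + 1).choose 2 := ⟨_, rfl⟩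
  induction S using Nat.strong_induction_on generalizing m with
  | _ S ih =>
  subst hS
  by_cases hw : ∑ j ∈ J, (m j + 1).choose 2 < T + M
  · exact ⟨m, ∑ j ∈ J, (m j + 1).choose 2 - T, fun _ => le_rfl, fun _ _ => rfl, by omega, by omega⟩
  · obtain ⟨j, hj, hj0⟩ : ∃ j ∈ J, (m j + 1).choose 2 ≠ 0 := by
      by_contra hcon
      push Not at hcon
      have := Finset.sum_eq_zero hcon
      omega
    have hmj : 1 ≤ m j := by
      by_contra h0
      have h1 : m j = 0 := by omega
      rw [h1] at hj0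
      exact hj0 rfl
    let m₁ : ι → ℕ := Function.update m j (m j - 1)
    have hm₁ : ∀ k, k ≠ j → m₁ k = m k := fun k hk => by simp [m₁, hk]
    have hm₁j : m₁ j = m j - 1 := by simp [m₁]
    have hle : ∀ k, m₁ k ≤ m k := by
      intro k
      by_cases hk : k = j
      · subst hk
        omega
      · rw [hm₁ k hk]
    have hch : (m j + 1).choose 2 = (m₁ j + 1).choose 2 + m j := by
      rw [hm₁j]
      have h2 : m j - 1 + 1 = m j := by omega
      have h3 : (m j + 1).choose 2 = (m j).choose 1 + (m j).choose 2 := Nat.choose_succ_succ' (m j) 1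
      rw [h2, h3, Nat.choose_one_right]
      omega
    have hsum : ∑ k ∈ J, (m k + 1).choose 2 = ∑ k ∈ J, (m₁ k + 1).choose 2 + m j := by
      rw [← Finset.add_sum_erase J _ hj, ← Finset.add_sum_erase J (fun k => (m₁ k + 1).choose 2) hj,
        hch, Finset.sum_congr rfl (g := fun k => (m₁ k + 1).choose 2) (s₁ := J.erase j) (fun k hk => by
          rw [hm₁ k (Finset.ne_of_mem_erase hk)])]
      ring
    have hMj := hm j hj
    obtain ⟨m', w, h1, h2, h3, h4⟩ := @ih (∑ k ∈ J, (m₁ k + 1).choose 2) (by omega) m₁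
      (fun k hk => (hle k).trans (hm k hk)) (by omega) rfl
    refine ⟨m', w, fun k => (h1 k).trans (hle k), fun k hk => ?_, h3, h4⟩
    rw [h2 k hk, hm₁ k (fun hkj => hk (hkj ▸ hj))]

end Pool.Agent.Lib.MP_6b2d39_agArr
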