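import Pool.Agent.Lib.MP_6b2d39_agArr.Greedy
import Pool.Agent.Lib.MP_6b2d39_agArr.StepA
import Pool.Agent.Lib.MP_6b2d39_agStd.FromStates
import Pool.Agent.Lib.MP_6b2d39_agStd.Sorting

set_option autoImplicit false

namespace Pool.Agent.Lib.MP_6b2d39_agArr

open Pool.Agent.Lib.MP_6b2d39_ag

/-- state of the first phase: `D` is the residual demand in the rows `< L` -/
structure StA (M : ℕ) (dem D : ℕ → ℤ) (L : ℕ) : Prop where
  pos : ∀ b < L, 1 ≤ D b
  le : ∀ b < L, D b ≤ dem b
  gap : ∀ b, b + 1 < L → dem (b + 1) - D (b + 1) ≤ M * (D b - D (b + 1) - (dem b - dem (b + 1)))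
  low : ∀ b ≤ M, D b = dem b

/-- one point of multiplicity `m` in the first phase -/
theorem phaseA_step {M A L' m : ℕ} (hM : 1 ≤ M) (hm : m ≤ M) (hA : 2 * M + 1 ≤ A) (hAL : A < L')
    {dem D : ℕ → ℤ}
    (hd1 : ∀ b, A ≤ b + 1 → b + 1 < L' → dem (b + 1) + 1 = dem b)
    (hd2 : ∀ b, b + 1 < L' → dem (b + 1) ≤ dem b + 1)
    (hd4 : ∀ b < A, 9 * (M : ℤ) ^ 2 + 2 * M ≤ dem b)
    (h : StA M dem D L') :
    ∃ (L : ℕ) (ρ : ℕ → ℕ) (D' : ℕ → ℤ), A ≤ L ∧ L ≤ L' ∧ (∀ b < L', ρ b < L') ∧
      (∀ b < L', ∀ c < L', ρ b = ρ c → b = c) ∧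
      (∀ b c, b < c → c < L → ρ c < ρ b) ∧
      (∀ b < L, D b = D' b + ((m - ρ b : ℕ) : ℤ)) ∧
      (∀ b, L ≤ b → b < L' → D b = ((m - ρ b : ℕ) : ℤ)) ∧
      StA M dem D' L ∧
      ∑ b ∈ Finset.range L', D b = ∑ b ∈ Finset.range L, D' b + ((m + 1).choose 2 : ℤ) ∧
      (L = A → 8 * (M : ℤ) ≤ D' (A - 1)) := by
  have hM' : (1 : ℤ) ≤ M := by exact_mod_cast hM
  have hm' : (m : ℤ) ≤ M := by exact_mod_cast hm
  -- the demand is large at the rows below A
  have hdA : 9 * (M : ℤ) ^ 2 + 2 * M - 1 ≤ dem A := by
    have h1 := hd1 (A - 1) (by omega) (by omega)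
    have h2 := hd4 (A - 1) (by omega)
    have h3 : A - 1 + 1 = A := by omega
    rw [h3] at h1
    linarith
  have hbig : ∀ b < A, 9 * (M : ℤ) ^ 2 + 2 * M - 2 ≤ M * D b := by
    intro b hb
    have h1 := h.gap b (by omega)
    have h2 := hd2 b (by omega)
    have h3 := h.pos (b + 1) (by omega)
    have h4 : 9 * (M : ℤ) ^ 2 + 2 * M - 1 ≤ dem (b + 1) := by
      rcases Nat.lt_or_ge (b + 1) A with h5 | h5
      · have := hd4 (b + 1) h5
        linarith
      · have : b + 1 = A := by omega
        rw [this]; exact hdA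
    nlinarith [mul_nonneg (by linarith : (0 : ℤ) ≤ M) (by linarith : (0 : ℤ) ≤ dem b + 1 - dem (b + 1)),
      mul_nonneg (by linarith : (0 : ℤ) ≤ (M : ℤ) - 1) (by linarith : (0 : ℤ) ≤ D (b + 1) - 1)]
  have hlarge : ∀ b < A, (M : ℤ) + 1 ≤ D b := by
    intro b hb
    have h1 := hbig b hb
    by_contra hcon
    push Not at hcon
    have h2 : D b ≤ M := by linarith
    nlinarith [mul_le_mul_of_nonneg_left h2 (by linarith : (0 : ℤ) ≤ M)]
  have hstrict : ∀ b, A ≤ b + 1 → b + 1 < L' → D (b + 1) + 1 ≤ D b := by
    intro b hb hb'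
    have h1 := h.gap b hb'
    have h2 := h.le (b + 1) hb'
    have h3 := hd1 b hb hb'
    have h4 : 0 ≤ (M : ℤ) * (D b - D (b + 1) - 1) := by
      have h5 : dem b - dem (b + 1) = 1 := by linarith
      rw [h5] at h1
      linarith
    by_contra hcon
    push Not at hcon
    have h5 : D b - D (b + 1) - 1 ≤ -1 := by linarith
    nlinarith [mul_le_mul_of_nonneg_left h5 (by linarith : (0 : ℤ) ≤ M)]
  set Dt : ℕ → ℤ := fun b => if b < A then max (D A) m + ((A : ℤ) - b) else D b with hDt
  have hDlow : ∀ b, b < A → Dt b = max (D A) m + ((A : ℤ) - b) := fun b hb => if_pos hb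
  have hDhigh : ∀ b, A ≤ b → Dt b = D b := fun b hb => if_neg (not_lt.2 hb)
  obtain ⟨L, ρ, hLL, hρ, hinj, hanti, hfin, hgt, hfree, hle, hsum⟩ := greedy (m := m) (L' := L')
    (by omega) Dt
    (by
      intro b hb
      rcases Nat.lt_or_ge b A with h1 | h1
      · rw [hDlow b h1]
        have h2 := h.pos A hAL
        have h3 := le_max_left (D A) (m : ℤ)
        have h4 : (b : ℤ) < A := by exact_mod_cast h1
        linarith
      · rw [hDhigh b h1]
        exact h.pos b hb)
    (by
      intro b hb
      rcases Nat.lt_or_ge (b + 1) A with h1 | h1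
      · rw [hDlow b (by omega), hDlow (b + 1) h1]
        push_cast
        linarith
      · rw [hDhigh (b + 1) h1]
        rcases Nat.lt_or_ge b A with h2 | h2
        · have h3 : b + 1 = A := by omega
          rw [hDlow b h2, h3]
          have h4 : (A : ℤ) - b = 1 := by
            rw [← h3]; push_cast; ring
          rw [h4]
          have := le_max_left (D A) (m : ℤ)
          linarith
        · rw [hDhigh b h2]
          exact hstrict b (by omega) hb)
  have hAL2 : A ≤ L := by
    by_contra hcon
    push Not at hcon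
    have h1 := hle L le_rfl (by omega)
    rw [hDlow L hcon] at h1
    have h2 := le_max_right (D A) (m : ℤ)
    have h3 : (L : ℤ) < A := by exact_mod_cast hcon
    linarith
  have hmD : ∀ b < L, (m : ℤ) < D b := by
    intro b hb
    rcases Nat.lt_or_ge b A with h1 | h1
    · have := hlarge b h1
      linarith
    · have := hgt b hb
      rwa [hDhigh b h1] at this
  have hule : ∀ b, ((m - ρ b : ℕ) : ℤ) ≤ m := by
    intro b
    have : m - ρ b ≤ m := Nat.sub_le _ _
    exact_mod_cast this
  have hu0 : ∀ b, (0 : ℤ) ≤ ((m - ρ b : ℕ) : ℤ) := fun b => by positivity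
  have hfin' : ∀ b, L ≤ b → b < L' → D b = ((m - ρ b : ℕ) : ℤ) := by
    intro b h1 h2
    rw [← hfin b h1 h2, hDhigh b (by omega)]
  refine ⟨L, ρ, fun b => D b - ((m - ρ b : ℕ) : ℤ), hAL2, hLL, hρ, hinj, hanti, ?_, hfin', ?_, ?_, ?_⟩
  · intro b _
    ring
  · refine ⟨?_, ?_, ?_, ?_⟩
    · intro b hb
      have h1 := hmD b hb
      have h2 := hule b
      try dsimp only
      linarith
    · intro b hb
      have h1 := h.le b (by omega)
      have h2 := hu0 b
      try dsimp only
      linarith
    · intro b hb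
      try dsimp only
      have h1 := h.gap b (by omega)
      have h2 := hanti b (b + 1) (by omega) hb
      have h3 : ((m - ρ (b + 1) : ℕ) : ℤ) ≤
          M * (((m - ρ (b + 1) : ℕ) : ℤ) - ((m - ρ b : ℕ) : ℤ)) := by
        rcases Nat.lt_or_ge (ρ (b + 1)) m with h4 | h4
        · have h5 : (m - ρ b : ℕ) + 1 ≤ (m - ρ (b + 1) : ℕ) := by omega
          have h6 : ((m - ρ b : ℕ) : ℤ) + 1 ≤ ((m - ρ (b + 1) : ℕ) : ℤ) := by exact_mod_cast h5
          have h7 := hule (b + 1)
          nlinarith [mul_le_mul_of_nonneg_left h6 (by linarith : (0 : ℤ) ≤ M)]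
        · have h5 : m - ρ (b + 1) = 0 := by omega
          have h6 : m - ρ b = 0 := by omega
          rw [h5, h6]
          simp
      linarith
    · intro b hb
      have h1 := hfree b (by omega) (by omega)
      have h2 : m - ρ b = 0 := by omega
      try dsimp only
      rw [h2, h.low b hb]
      simp
  · have h1 : ∑ b ∈ Finset.range L', D b =
        ∑ b ∈ Finset.range L, D b + ∑ b ∈ Finset.Ico L L', D b := by
      rw [Finset.range_eq_Ico, Finset.range_eq_Ico, Finset.sum_Ico_consecutive _ (by omega) hLL]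
    have h2 : ∑ b ∈ Finset.range L', ((m - ρ b : ℕ) : ℤ) =
        ∑ b ∈ Finset.range L, ((m - ρ b : ℕ) : ℤ) + ∑ b ∈ Finset.Ico L L', ((m - ρ b : ℕ) : ℤ) := by
      rw [Finset.range_eq_Ico, Finset.range_eq_Ico, Finset.sum_Ico_consecutive _ (by omega) hLL]
    have h3 : ∑ b ∈ Finset.Ico L L', D b = ∑ b ∈ Finset.Ico L L', ((m - ρ b : ℕ) : ℤ) := by
      refine Finset.sum_congr rfl fun b hb => ?_
      rw [Finset.mem_Ico] at hb
      exact hfin' b hb.1 hb.2
    have h4 : ((m + 1).choose 2 : ℤ) = (m * (m + 1) / 2 : ℕ) := by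
      have : (m + 1).choose 2 = m * (m + 1) / 2 := by
        rw [Nat.choose_two_right, Nat.add_sub_cancel, mul_comm]
      exact_mod_cast this
    rw [Finset.sum_sub_distrib, h4, ← hsum, h2, h1, h3]
    ring
  · intro _
    try dsimp only
    have h1 := h.gap (A - 1) (by omega)
    have h2 := hd1 (A - 1) (by omega) (by omega)
    have h3 : A - 1 + 1 = A := by omega
    rw [h3] at h1 h2
    have h4 := h.pos A hAL
    have h5 := hule (A - 1)
    have h6 : dem (A - 1) - dem A = 1 := by linarith
    rw [h6] at h1
    have h7 : 9 * (M : ℤ) ^ 2 + 4 * M - 2 ≤ M * D (A - 1) := by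
      nlinarith [mul_nonneg (by linarith : (0 : ℤ) ≤ (M : ℤ) - 1)
        (by linarith : (0 : ℤ) ≤ D A - 1)]
    by_contra hcon
    push Not at hcon
    have h8 : D (A - 1) ≤ 8 * M - 1 + M := by linarith
    nlinarith [mul_le_mul_of_nonneg_left h8 (by linarith : (0 : ℤ) ≤ M)]

/-- the light points `J` fill the demands `dem`, in presence of the heavy points `V`, which keep
the order `0, 1, 2, …` -/
theorem light_cert {ι : Type} [DecidableEq ι] {m : ι → ℕ} {V : Finset ι} {M A H : ℕ} (hM : 1 ≤ M)
    (hA : 2 * M + 1 ≤ A) (hH : 2 * M + 1 ≤ H) {dem : ℕ → ℤ}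
    (hd1 : ∀ b, A ≤ b + 1 → b + 1 < H → dem (b + 1) + 1 = dem b)
    (hd2 : ∀ b, b + 1 < H → dem (b + 1) ≤ dem b + 1)
    (hd3 : ∀ b < H, 1 ≤ dem b)
    (hd4 : ∀ b < A, b < H → 9 * (M : ℤ) ^ 2 + 2 * M ≤ dem b)
    (hd7 : ∀ b : ℕ, 1 ≤ b → b < M → Lam b dem ≤ 2 * b)
    (hV : ∀ v ∈ V, m v ≤ A) (J : Finset ι) (hJV : Disjoint J V) (hm : ∀ j ∈ J, m j ≤ M)
    (hs : ∑ b ∈ Finset.range H, dem b = ∑ j ∈ J, ((m j + 1).choose 2 : ℤ)) :
    Cert m (J ∪ V) H fun b => dem b + ∑ v ∈ V, ((m v - b : ℕ) : ℤ) := by
  have hM' : (1 : ℤ) ≤ M := by exact_mod_cast hM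
  -- from states of the light points to a certificate with the heavy points
  have hstates : ∀ (J : Finset ι), Disjoint J V → ∀ (B : ℕ), 1 ≤ B → ∀ (D : ℕ → ℤ) (t i : ι → ℕ),
      (∀ j ∈ J, t j < B ∧ i j ≤ t j) →
      (∀ b < B, ∑ j ∈ J, ((m j - MP_6b2d39_ag.rk (t j) (i j) b : ℕ) : ℤ) = D b) →
      Cert m (J ∪ V) B fun b => D b + ∑ v ∈ V, ((m v - b : ℕ) : ℤ) := by
    intro J hJV B hB D t i ht hD
    refine cert_of_states (fun j => if j ∈ J then t j else 0) (fun j => if j ∈ J then i j else 0)
      ?_ ?_
    · intro j hj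
      by_cases h1 : j ∈ J
      · simp only [h1, if_true]
        exact ht j h1
      · simp only [h1, if_false]
        exact ⟨by omega, le_rfl⟩
    · intro b hb
      rw [Finset.sum_union hJV]
      refine add_le_add (le_of_eq ?_) (le_of_eq ?_)
      · rw [← hD b hb]
        refine Finset.sum_congr rfl fun j hj => ?_
        simp only [hj, if_true]
      · refine Finset.sum_congr rfl fun v hv => ?_
        have h1 : v ∉ J := fun h => Finset.disjoint_left.1 hJV h hv
        simp only [h1, if_false]
        have h2 : MP_6b2d39_ag.rk 0 0 b = b := by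
          unfold MP_6b2d39_ag.rk
          split_ifs <;> omega
        rw [h2]
  rcases Nat.lt_or_ge A H with hAH | hAH
  · -- first phase, then the core
    have key : ∀ (k : ℕ) (J : Finset ι), J.card = k → Disjoint J V → (∀ j ∈ J, m j ≤ M) →
        ∀ (L : ℕ), A ≤ L → L ≤ H → ∀ (D : ℕ → ℤ), StA M dem D L →
        ∑ b ∈ Finset.range L, D b = ∑ j ∈ J, ((m j + 1).choose 2 : ℤ) →
        (L = A → 8 * (M : ℤ) ≤ D (A - 1)) →
        Cert m (J ∪ V) L fun b => D b + ∑ v ∈ V, ((m v - b : ℕ) : ℤ) := by
      intro k
      induction k with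
      | zero =>
        intro J hJ _ _ L hAL hLH D hSt hsum _
        exfalso
        rw [Finset.card_eq_zero] at hJ
        subst hJ
        rw [Finset.sum_empty] at hsum
        have h1 : ∑ b ∈ Finset.range L, (1 : ℤ) ≤ ∑ b ∈ Finset.range L, D b :=
          Finset.sum_le_sum fun b hb => hSt.pos b (Finset.mem_range.1 hb)
        rw [hsum] at h1
        simp only [Finset.sum_const, Finset.card_range, nsmul_eq_mul, mul_one] at h1
        have h2 : (0 : ℤ) < L := by
          have : 0 < L := by omega
          exact_mod_cast this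
        linarith
      | succ k ih =>
        intro J hJ hJV hm L hAL hLH D hSt hsum hside
        rcases Nat.eq_or_lt_of_le hAL with hLA | hLA
        · -- the core
          subst hLA
          have hside' := hside rfl
          have hdem : ∀ b, b + 1 < A → -(M : ℤ) ≤ M * (dem b - dem (b + 1)) := by
            intro b hb
            have h1 := hd2 b (by omega)
            nlinarith [mul_nonneg (by linarith : (0 : ℤ) ≤ M)
              (by linarith : (0 : ℤ) ≤ dem b + 1 - dem (b + 1))]
          obtain ⟨t, i, ht, hti⟩ := coreG_finset hM hA hm D hSt.pos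
            (by
              intro b hb
              have h1 := hSt.gap b hb
              have h2 := hSt.le (b + 1) hb
              have h3 := hd2 b (by omega)
              by_contra hcon
              push Not at hcon
              have h4 : D b - D (b + 1) - (dem b - dem (b + 1)) ≤ -1 := by linarith
              nlinarith [mul_le_mul_of_nonneg_left h4 (by linarith : (0 : ℤ) ≤ M)])
            (by
              intro b hb
              have h1 := hSt.gap b hb
              have h2 := hdem b hb
              have h3 := hd4 (b + 1) hb (by omega)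
              nlinarith)
            hside'
            (by
              intro b hb hb'
              have : Lam b D = Lam b dem := by
                unfold Lam
                rw [hSt.low (b + 1) (by omega), hSt.low b (by omega)]
                congr 3
                refine Finset.sum_congr rfl fun r hr => ?_
                rw [Finset.mem_range] at hr
                exact hSt.low r (by omega)
              rw [this]
              exact hd7 b hb hb')
            hsum
          exact hstates J hJV A (by omega) D t i ht hti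
        · -- one step
          obtain ⟨j, hj⟩ : J.Nonempty := Finset.card_pos.1 (by omega)
          obtain ⟨L₁, ρ, D', hAL₁, hL₁, hρ, hinj, hanti, hD1, hD2, hSt', hsum', hside'⟩ :=
            phaseA_step (m := m j) hM (hm j hj) hA hLA
              (fun b h1 h2 => hd1 b h1 (by omega)) (fun b h1 => hd2 b (by omega))
              (fun b h1 => hd4 b h1 (by omega)) hSt
          have hcard : (J.erase j).card = k := by
            rw [Finset.card_erase_of_mem hj, hJ]
            rfl
          have hsum2 : ∑ b ∈ Finset.range L₁, D' b =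
              ∑ x ∈ J.erase j, ((m x + 1).choose 2 : ℤ) := by
            have h1 := Finset.add_sum_erase J (fun x => ((m x + 1).choose 2 : ℤ)) hj
            rw [hsum, ← h1] at hsum'
            linarith
          have hdisj : Disjoint (J.erase j) V :=
            Finset.disjoint_of_subset_left (Finset.erase_subset _ _) hJV
          have hIH := ih (J.erase j) hcard hdisj
            (fun x hx => hm x (Finset.mem_of_mem_erase hx)) L₁ hAL₁ (by omega) D' hSt' hsum2 hside'
          have hjn : j ∉ J.erase j ∪ V := by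
            rw [Finset.mem_union, not_or]
            exact ⟨Finset.notMem_erase j J, fun h => Finset.disjoint_left.1 hJV hj h⟩
          have hins : insert j (J.erase j ∪ V) = J ∪ V := by
            rw [← Finset.insert_union, Finset.insert_erase hj]
          rw [← hins]
          refine cert_stepA hjn hL₁ hIH ρ hρ hinj hanti ?_ ?_
          · intro b hb
            have := hD1 b hb
            try dsimp only
            linarith
          · intro b hb hb'
            have h1 : ∑ v ∈ V, ((m v - b : ℕ) : ℤ) = 0 := by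
              refine Finset.sum_eq_zero fun v hv => ?_
              have := hV v hv
              have : m v - b = 0 := by omega
              rw [this]
              rfl
            try dsimp only
            rw [h1, hD2 b hb hb']
            simp
    refine key J.card J rfl hJV hm H (by omega) le_rfl dem ⟨hd3, fun b _ => le_rfl, ?_, fun b _ => rfl⟩
      hs (fun h => by omega)
    intro b _
    simp
  · -- the core alone
    obtain ⟨t, i, ht, hti⟩ := coreG_finset hM hH hm dem hd3 hd2
      (by
        intro b hb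
        have h2 := hd2 b hb
        have h3 := hd4 (b + 1) (by omega) hb
        nlinarith [mul_nonneg (by linarith : (0 : ℤ) ≤ M)
          (by linarith : (0 : ℤ) ≤ dem b + 1 - dem (b + 1))])
      (by
        have h1 := hd4 (H - 1) (by omega) (by omega)
        nlinarith)
      hd7 hs
    exact hstates J hJV H (by omega) dem t i ht hti

end Pool.Agent.Lib.MP_6b2d39_agArr
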