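import Pool.Agent.Lib.MP_6b2d39_agArr.StepA
import Pool.Agent.Lib.MP_6b2d39_ag.Effective
import Pool.Agent.Lib.MP_6b2d39_agStd.Lemma
import Pool.Agent.Lib.MP_6b2d39_agStd.FromStates
import Pool.Agent.Lib.MP_6b2d39_agStd.Sorting
import Pool.Agent.Lib.MP_6b2d39_agStd.PhaseA
import Pool.Agent.Lib.MP_6b2d39_agStd.Dem

/-!
Assembly of the theorem on Cremona-reduced systems (task A).
-/

set_option autoImplicit false

namespace Pool.Agent.Lib.MP_6b2d39_agArr

open Pool.Agent.Lib.MP_6b2d39_ag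

/-! ### Std.lean (task A) -/

/-- the heavy point `i₁` on top: rows `N - a₁, …, N - 1` -/
theorem cert_top {ι : Type} [DecidableEq ι] {m : ι → ℕ} {J : Finset ι} {i₁ : ι} (hi : i₁ ∉ J)
    {N : ℕ} (hN : m i₁ ≤ N) (h : Cert m J (N - m i₁) fun b => (N : ℤ) - b) :
    Cert m (insert i₁ J) N fun b => (N : ℤ) - b := by
  refine cert_stepA hi (Nat.sub_le N (m i₁)) h
    (fun b => if b < N - m i₁ then m i₁ + (N - m i₁ - 1 - b) else b - (N - m i₁)) ?_ ?_ ?_ ?_ ?_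
  · intro b hb
    split_ifs <;> omega
  · intro b hb c hc hbc
    split_ifs at hbc <;> omega
  · intro b c hbc hc
    rw [if_pos hc, if_pos (hbc.trans hc)]
    omega
  · intro b _
    have : (0 : ℤ) ≤ ((m i₁ - (if b < N - m i₁ then m i₁ + (N - m i₁ - 1 - b)
      else b - (N - m i₁)) : ℕ) : ℤ) := Int.natCast_nonneg _
    linarith
  · intro b hb hb'
    rw [if_neg (by omega)]
    omega

theorem good_std {ι : Type} [Fintype ι] [DecidableEq ι] (m : ι → ℕ) {M N : ℕ} (i₁ i₂ i₃ : ι)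
    (h12 : i₁ ≠ i₂) (h13 : i₁ ≠ i₃) (h23 : i₂ ≠ i₃) (hM : 1 ≤ M)
    (hlight : ∀ i, i ≠ i₁ → i ≠ i₂ → i ≠ i₃ → m i ≤ M) (h2 : M ≤ m i₂) (h3 : M ≤ m i₃)
    (hred : m i₁ + m i₂ + m i₃ + 1 ≤ N) (hbig : m i₂ + m i₃ + (9 * M ^ 2 + 2 * M) ≤ N)
    (htot : (N + 1).choose 2 ≤ ∑ i, (m i + 1).choose 2) :
    Good ℂ N (fun i => Finset.Icc 1 (m i)) ∅ := by
  classical
  set J : Finset ι := Finset.univ \ {i₁, i₂, i₃} with hJ
  set V : Finset ι := {i₂, i₃} with hV
  have hmemJ : ∀ i, i ∈ J ↔ i ≠ i₁ ∧ i ≠ i₂ ∧ i ≠ i₃ := by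
    intro i
    rw [hJ, Finset.mem_sdiff, Finset.mem_insert, Finset.mem_insert, Finset.mem_singleton, not_or,
      not_or]
    simp only [Finset.mem_univ, true_and, ne_eq]
  have hdisj : Disjoint J V := by
    rw [Finset.disjoint_left]
    intro i hi hiV
    rw [hV, Finset.mem_insert, Finset.mem_singleton] at hiV
    rw [hmemJ] at hi
    rcases hiV with h | h
    · exact hi.2.1 h
    · exact hi.2.2 h
  have hi1 : i₁ ∉ J ∪ V := by
    rw [Finset.mem_union, hmemJ, hV, Finset.mem_insert, Finset.mem_singleton]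
    rintro (h | h | h)
    · exact h.1 rfl
    · exact h12 h
    · exact h13 h
  have huniv : insert i₁ (J ∪ V) = Finset.univ := by
    ext i
    rw [Finset.mem_insert, Finset.mem_union, hmemJ, hV, Finset.mem_insert, Finset.mem_singleton]
    simp only [Finset.mem_univ, iff_true]
    tauto
  have hsplit : ∑ i, (m i + 1).choose 2 = (m i₁ + 1).choose 2 + (∑ j ∈ J, (m j + 1).choose 2 +
      ((m i₂ + 1).choose 2 + (m i₃ + 1).choose 2)) := by
    rw [← huniv, Finset.sum_insert hi1, Finset.sum_union hdisj, hV, Finset.sum_pair h23]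
  -- the demands without rounding
  obtain ⟨-, hH1, -, -, -, -, -, -, hpos0, -, -, hsum0⟩ :=
    demF_props (N := N) (a₁ := m i₁) (a₂ := m i₂) (a₃ := m i₃) (w := 0) (M := M) hM rfl rfl rfl h2 h3
      hred hbig (by omega)
  have hnn : (0 : ℤ) ≤ ∑ b ∈ Finset.range (N - m i₁), demF N (m i₂) (m i₃) 0 b :=
    Finset.sum_nonneg fun b hb => by
      have := hpos0 b (Finset.mem_range.1 hb)
      linarith
  have hle : (m i₁ + 1).choose 2 + ((m i₂ + 1).choose 2 + (m i₃ + 1).choose 2) ≤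
      (N + 1).choose 2 := by
    zify
    push_cast at hsum0
    linarith
  set T : ℕ := (N + 1).choose 2 -
    ((m i₁ + 1).choose 2 + ((m i₂ + 1).choose 2 + (m i₃ + 1).choose 2)) with hT
  obtain ⟨m', w, hm'1, hm'2, hw, hm'3⟩ := exists_reduce (m := m) (J := J) (M := M) (T := T) hM
    (fun j hj => by
      rw [hmemJ] at hj
      exact hlight j hj.1 hj.2.1 hj.2.2) (by omega)
  obtain ⟨hA, hH, hA2, hA3, hH2, hH3, p1, p2, p3, p4, p7, psum⟩ :=
    demF_props (N := N) (a₁ := m i₁) (a₂ := m i₂) (a₃ := m i₃) (w := w) (M := M) hM rfl rfl rfl h2 h3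
      hred hbig hw
  have hi2J : i₂ ∉ J := by rw [hmemJ]; tauto
  have hi3J : i₃ ∉ J := by rw [hmemJ]; tauto
  have hcert := light_cert (m := m') (V := V) (M := M) hM hA hH p1 p2 p3 p4 p7
    (by
      intro v hv
      rw [hV, Finset.mem_insert, Finset.mem_singleton] at hv
      rcases hv with rfl | rfl
      · rw [hm'2 _ hi2J]; exact hA2
      · rw [hm'2 _ hi3J]; exact hA3) J hdisj
    (fun j hj => by
      have h4 := hm'1 j
      rw [hmemJ] at hj
      have h5 := hlight j hj.1 hj.2.1 hj.2.2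
      omega)
    (by
      have h6 : ((∑ j ∈ J, (m' j + 1).choose 2 : ℕ) : ℤ) = (T : ℤ) + w := by
        rw [hm'3]; push_cast; rfl
      push_cast at h6
      rw [h6]
      have h7 : (T : ℤ) = ((N + 1).choose 2 : ℕ) -
          (((m i₁ + 1).choose 2 : ℕ) + (((m i₂ + 1).choose 2 : ℕ) + ((m i₃ + 1).choose 2 : ℕ))) := by
        rw [hT]
        push_cast [Nat.cast_sub hle]
        ring
      rw [h7]
      linarith)
  have hcert2 : Cert m (J ∪ V) (N - m i₁) fun b => (N : ℤ) - b := by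
    refine cert_mono (fun j _ => hm'1 j) ?_ hcert
    intro b _
    rw [hV, Finset.sum_pair h23, hm'2 _ hi2J, hm'2 _ hi3J]
    unfold demF
    split_ifs <;> linarith
  have hcert3 := cert_top (m := m) hi1 (N := N) (by omega) hcert2
  rw [huniv] at hcert3
  exact good_of_cert hcert3

theorem good_std_shapes {d h u M : ℕ} (m : Fin h → ℕ) (i₁ i₂ i₃ : Fin h)
    (h12 : i₁ ≠ i₂) (h13 : i₁ ≠ i₃) (h23 : i₂ ≠ i₃) (hM : 1 ≤ M)
    (hlight : ∀ i, i ≠ i₁ → i ≠ i₂ → i ≠ i₃ → m i ≤ M) (h2 : M ≤ m i₂) (h3 : M ≤ m i₃)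
    (hred : m i₁ + m i₂ + m i₃ ≤ d) (hbig : m i₂ + m i₃ + (9 * M ^ 2 + 2 * M) ≤ d + 1)
    (htot : (d + 2).choose 2 ≤ ∑ i, (m i + 1).choose 2 + u) :
    Good ℂ (d + 1) (shapes m u) ∅ := by
  have h1 : shapes m u = fun i => Finset.Icc 1 (Sum.elim m (fun _ : Fin u => 1) i) := by
    funext i
    rcases i with i | i
    · rfl
    · simp [shapes]
  rw [h1]
  apply good_std (M := M) _ (Sum.inl i₁) (Sum.inl i₂) (Sum.inl i₃)
    (fun h => h12 (Sum.inl_injective h)) (fun h => h13 (Sum.inl_injective h))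
    (fun h => h23 (Sum.inl_injective h)) hM ?_ h2 h3 (by simp only [Sum.elim_inl]; omega) hbig
  · rw [Fintype.sum_sum_type]
    simpa using htot
  · rintro (i | i) hi1 hi2 hi3
    · exact hlight i (fun h => hi1 (by rw [h])) (fun h => hi2 (by rw [h])) (fun h => hi3 (by rw [h]))
    · exact hM

theorem reduced_nonspecial {d h M : ℕ} (m : Fin h → ℕ) (i₁ i₂ i₃ : Fin h)
    (h12 : i₁ ≠ i₂) (h13 : i₁ ≠ i₃) (h23 : i₂ ≠ i₃) (hM : 1 ≤ M)
    (hlight : ∀ i, i ≠ i₁ → i ≠ i₂ → i ≠ i₃ → m i ≤ M) (h2 : M ≤ m i₂) (h3 : M ≤ m i₃)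
    (hred : m i₁ + m i₂ + m i₃ ≤ d) (hbig : m i₂ + m i₃ + (9 * M ^ 2 + 2 * M) ≤ d + 1) :
    ∃ Φ : MvPolynomial (Fin h × Fin 2) ℂ, Φ ≠ 0 ∧ ∀ p : Fin h → Fin 2 → ℂ,
      MvPolynomial.eval (fun q => p q.1 q.2) Φ ≠ 0 →
        (Module.finrank ℂ (fatSystem d m p) : ℤ) =
          max (((d + 2).choose 2 : ℤ) - ∑ i, ((m i + 1).choose 2 : ℤ)) 0 := by
  rcases Nat.lt_or_ge (∑ i, (m i + 1).choose 2) ((d + 2).choose 2) with h1 | h1
  · apply general_nonempty_side m ((d + 2).choose 2 - ∑ i, (m i + 1).choose 2) (by omega)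
    exact good_std_shapes m i₁ i₂ i₃ h12 h13 h23 hM hlight h2 h3 hred hbig (by omega)
  · apply general_empty_side m h1
    exact good_std_shapes m i₁ i₂ i₃ h12 h13 h23 hM hlight h2 h3 hred hbig (by omega)

end Pool.Agent.Lib.MP_6b2d39_agArr
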