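import Pool.Agent.Lib.MP_6b2d39_agStd.InvG

/-!
The greedy arrangement for concave capacities (compare `Core`).
-/

namespace Pool.Agent.Lib.MP_6b2d39_ag

open Finset

variable {n M B : ℕ} {μ s : ℕ → ℕ} {b : ℕ} {kk t i : ℕ → ℕ}

/-- one level: `D` is the missing amount in row `b + 1` -/
theorem GInv.stepG (h : GInv n M B μ s (b + 1) kk t i) (hμ : Antitone μ) (hM : ∀ p, μ p ≤ M)
    (hM1 : 1 ≤ M) (hbB : b + 1 < B) {D : ℕ}
    (hD : ∑ p ∈ range n, (μ p - rk (t p) (i p) (b + 1)) + D = s (b + 1))
    (hsup : D ≤ ∑ p ∈ Ico (kk (b + 1)) n, min (b + 1) (μ p))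
    (hhalf : b + 1 < 2 * M → min (b + 1) (μ (kk (b + 1))) ≤ D)
    (hfull : μ (kk (b + 1)) < b + 1 → 8 * M ≤ D) :
    ∃ kk' t' i', GInv n M B μ s b kk' t' i' ∧ (∀ r, b < r → kk' r = kk r) ∧
      (μ (kk (b + 1)) < b + 1 → 8 ≤ (Ico (kk (b + 1)) (kk' b)).card) := by
  set k := kk (b + 1) with hk
  obtain ⟨k', y, hkk', hk'n, hy1, hy2, hy3, hy4, hy5⟩ :=
    distribute (fun p => min (b + 1) (μ p)) (fun p q hpq => min_le_min le_rfl (hμ hpq))
      (k := k) h.le hsup
  have hyb : ∀ p, k ≤ p → p < k' → y p < b + 1 ∧ y p < μ p := by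
    intro p h1 h2
    have := hy1 p h1 h2
    simp only [lt_min_iff] at this
    exact this
  set kk' : ℕ → ℕ := fun r => if r = b then k' else kk r with hkk
  set t' : ℕ → ℕ := fun p => if k ≤ p ∧ p < k' then b + 1 else t p with ht'
  set i' : ℕ → ℕ := fun p => if k ≤ p ∧ p < k' then b + 1 - y p else i p with hi'
  have hkkb : kk' b = k' := by simp [hkk]
  have hkkr : ∀ r, b < r → kk' r = kk r := by
    intro r hr
    simp only [hkk]
    rw [if_neg (by omega)]
  have hnew : ∀ p, k ≤ p → p < k' → t' p = b + 1 ∧ i' p = b + 1 - y p := by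
    intro p h1 h2
    simp only [ht', hi', if_pos (And.intro h1 h2)]
    exact ⟨trivial, trivial⟩
  have hold : ∀ p, ¬ (k ≤ p ∧ p < k') → t' p = t p ∧ i' p = i p := by
    intro p h1
    simp only [ht', hi', if_neg h1]
    exact ⟨trivial, trivial⟩
  have hlow : ∀ r, b + 1 < r → r < B → kk (r - 1) ≤ k := fun r h1 h2 =>
    h.anti (by omega) (by omega) (by omega)
  -- membership in old levels
  have holdlev : ∀ r, b + 1 < r → r < B → ∀ p, p < kk (r - 1) → t' p = t p ∧ i' p = i p := by
    intro r h1 h2 p hp
    apply hold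
    have := hlow r h1 h2
    omega
  refine ⟨kk', t', i', ⟨?_, ?_, ?_, ?_, ?_, ?_, ?_, ?_, ?_, ?_, ?_⟩, hkkr, ?_⟩
  · -- top
    rw [hkkr _ (by omega)]
    exact h.top
  · -- mono
    intro r hr hrB
    rcases Nat.lt_or_ge (b + 1) r with h1 | h1
    · rw [hkkr r hr, hkkr (r - 1) (by omega)]
      exact h.mono r h1 hrB
    · have : r = b + 1 := by omega
      subst this
      rw [hkkr _ hr, Nat.add_sub_cancel, hkkb]
      exact hkk'
  · rw [hkkb]; exact hk'n
  · -- bd
    intro p
    by_cases h1 : k ≤ p ∧ p < k'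
    · obtain ⟨h2, h3⟩ := hnew p h1.1 h1.2
      rw [h2, h3]
      omega
    · obtain ⟨h2, h3⟩ := hold p h1
      rw [h2, h3]
      exact h.bd p
  · -- lvl
    intro r hr hrB p hp1 hp2
    rcases Nat.lt_or_ge (b + 1) r with h1 | h1
    · rw [hkkr r hr] at hp1
      rw [hkkr (r - 1) (by omega)] at hp2
      obtain ⟨h2, h3⟩ := holdlev r h1 hrB p hp2
      rw [h2, h3]
      exact h.lvl r h1 hrB p hp1 hp2
    · have hr' : r = b + 1 := by omega
      subst hr'
      rw [hkkr _ hr] at hp1
      rw [Nat.add_sub_cancel, hkkb] at hp2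
      obtain ⟨h2, h3⟩ := hnew p hp1 hp2
      have h4 := hyb p hp1 hp2
      rw [h2, h3]
      refine ⟨rfl, ?_⟩
      rw [lt_min_iff]
      omega
  · -- un
    intro p hp
    rw [hkkb] at hp
    obtain ⟨h2, h3⟩ := hold p (by omega)
    rw [h2, h3]
    exact h.un p (by omega)
  · -- exact'
    intro r hr hrB
    rcases Nat.lt_or_ge (b + 1) r with h1 | h1
    · rw [← h.exact' r h1 hrB]
      apply sum_congr rfl
      intro p _
      by_cases h2 : k ≤ p ∧ p < k'
      · obtain ⟨h3, h4⟩ := hnew p h2.1 h2.2
        obtain ⟨h5, h6⟩ := h.un p h2.1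
        rw [h3, h4, h5, h6, rk_zero, slice_above h1 (by omega)]
      · obtain ⟨h3, h4⟩ := hold p h2
        rw [h3, h4]
    · have hr' : r = b + 1 := by omega
      subst hr'
      rw [← hD]
      have hs1 : ∀ F : ℕ → ℕ, ∑ p ∈ range n, F p =
          ∑ p ∈ range k, F p + ∑ p ∈ Ico k k', F p + ∑ p ∈ Ico k' n, F p := by
        intro F
        rw [range_eq_Ico, range_eq_Ico, sum_Ico_consecutive _ (Nat.zero_le _) hkk',
          sum_Ico_consecutive _ (Nat.zero_le _) hk'n]
      rw [hs1, hs1]
      have h2 : ∑ p ∈ range k, (μ p - rk (t' p) (i' p) (b + 1)) =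
          ∑ p ∈ range k, (μ p - rk (t p) (i p) (b + 1)) := by
        apply sum_congr rfl
        intro p hp
        rw [mem_range] at hp
        obtain ⟨h3, h4⟩ := hold p (by omega)
        rw [h3, h4]
      have h3 : ∑ p ∈ Ico k' n, (μ p - rk (t' p) (i' p) (b + 1)) =
          ∑ p ∈ Ico k' n, (μ p - rk (t p) (i p) (b + 1)) := by
        apply sum_congr rfl
        intro p hp
        rw [mem_Ico] at hp
        obtain ⟨h3, h4⟩ := hold p (by omega)
        rw [h3, h4]
      have h4 : ∑ p ∈ Ico k k', (μ p - rk (t' p) (i' p) (b + 1)) + ∑ p ∈ Ico k k', y p =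
          ∑ p ∈ Ico k k', (μ p - rk (t p) (i p) (b + 1)) +
            ∑ p ∈ Ico k k', min (b + 1) (μ p) := by
        rw [← sum_add_distrib, ← sum_add_distrib]
        apply sum_congr rfl
        intro p hp
        rw [mem_Ico] at hp
        obtain ⟨h3, h4⟩ := hnew p hp.1 hp.2
        obtain ⟨h5, h6⟩ := h.un p hp.1
        have h7 := hyb p hp.1 hp.2
        rw [h3, h4, h5, h6, rk_zero, slice_at (by omega)]
        omega
      omega
  · -- loss
    intro r hr hrB
    rcases Nat.lt_or_ge (b + 1) r with h1 | h1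
    · rw [hkkr r hr, hkkr (r - 1) (by omega)]
      have h2 := h.loss r h1 hrB
      have h3 : ∑ p ∈ Ico (kk r) (kk (r - 1)), (r - i' p) =
          ∑ p ∈ Ico (kk r) (kk (r - 1)), (r - i p) := by
        apply sum_congr rfl
        intro p hp
        rw [mem_Ico] at hp
        rw [(holdlev r h1 hrB p hp.2).2]
      rw [h3]
      exact h2
    · have hr' : r = b + 1 := by omega
      subst hr'
      rw [hkkr _ hr, Nat.add_sub_cancel, hkkb]
      have h3 : ∑ p ∈ Ico (kk (b + 1)) k', (b + 1 - i' p) = ∑ p ∈ Ico k k', y p := by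
        apply sum_congr rfl
        intro p hp
        rw [mem_Ico] at hp
        rw [(hnew p hp.1 hp.2).2]
        have h7 := hyb p hp.1 hp.2
        omega
      rw [h3]
      have h4 : min (b + 1) (μ k) ≤ min (b + 1) M := min_le_min le_rfl (hM k)
      rcases hy3 with h5 | h5
      · rw [h5]
        rw [le_min_iff]
        omega
      · exact h5.trans h4
  · -- part
    intro r hr hrB
    rcases Nat.lt_or_ge (b + 1) r with h1 | h1
    · rw [hkkr r hr, hkkr (r - 1) (by omega)]
      refine le_trans (card_le_card ?_) (h.part r h1 hrB)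
      intro p hp
      rw [mem_filter, mem_Ico] at hp ⊢
      rw [(holdlev r h1 hrB p hp.1.2).2] at hp
      exact hp
    · have hr' : r = b + 1 := by omega
      subst hr'
      rw [hkkr _ hr, Nat.add_sub_cancel, hkkb]
      refine le_trans (card_le_card ?_) hy4
      intro p hp
      rw [mem_filter, mem_Ico] at hp ⊢
      refine ⟨hp.1, ?_⟩
      have h5 := hp.2
      rw [(hnew p hp.1.1 hp.1.2).2] at h5
      have h7 := hyb p hp.1.1 hp.1.2
      omega
  · -- half
    intro r hr hrM p hp1 hp2
    rcases Nat.lt_or_ge (b + 1) r with h1 | h1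
    · by_cases hrB : r < B
      · rw [hkkr r hr] at hp1
        rw [hkkr (r - 1) (by omega)] at hp2
        rw [(holdlev r h1 hrB p hp2).2]
        exact h.half r h1 hrM p hp1 hp2
      · rw [hkkr r hr] at hp1
        rw [hkkr (r - 1) (by omega)] at hp2
        have h5 := h.half r h1 hrM p hp1 hp2
        by_cases h6 : k ≤ p ∧ p < k'
        · have h7 := (h.un p h6.1).2
          omega
        · rw [(hold p h6).2]
          exact h5
    · have hr' : r = b + 1 := by omega
      subst hr'
      rw [hkkr _ hr] at hp1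
      rw [Nat.add_sub_cancel, hkkb] at hp2
      rw [(hnew p hp1 hp2).2]
      have h5 := hy5 (hhalf hrM) p hp1 hp2
      have h7 := hyb p hp1 hp2
      have h8 : min (b + 1) (μ p) ≤ b + 1 := min_le_left _ _
      omega
  · -- full
    intro r hr hrB hmu
    rcases Nat.lt_or_ge (b + 1) r with h1 | h1
    · rw [hkkr r hr] at hmu ⊢
      rw [hkkr (r - 1) (by omega)]
      refine le_trans (h.full r h1 hrB hmu) (card_le_card ?_)
      intro p hp
      rw [mem_filter, mem_Ico] at hp ⊢
      rw [(holdlev r h1 (by omega) p hp.1.2).2]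
      exact hp
    · have hr' : r = b + 1 := by omega
      subst hr'
      rw [hkkr _ hr] at hmu ⊢
      rw [Nat.add_sub_cancel, hkkb]
      have h8M := hfull hmu
      have hcardS : ∑ p ∈ Ico k k', min (b + 1) (μ p) ≤ (Ico k k').card * M := by
        have := sum_le_card_nsmul (Ico k k') (fun p => min (b + 1) (μ p)) M
          (fun p _ => (min_le_right _ _).trans (hM p))
        rwa [smul_eq_mul] at this
      have hsub : (Ico k k').filter (fun p => y p = 0) ⊆
          (Ico (kk (b + 1)) k').filter (fun p => i' p = b + 1) := by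
        intro p hp
        rw [mem_filter, mem_Ico] at hp ⊢
        refine ⟨hp.1, ?_⟩
        rw [(hnew p hp.1.1 hp.1.2).2, hp.2]
        rfl
      refine le_trans ?_ (card_le_card hsub)
      have hcompl := card_filter_add_card_filter_not (s := Ico k k') (fun p => y p = 0)
      by_cases h0 : ∑ p ∈ Ico k k', y p = 0
      · have h9 : (Ico k k').filter (fun p => ¬ y p = 0) = ∅ := by
          rw [filter_eq_empty_iff]
          intro p hp
          rw [sum_eq_zero_iff] at h0
          simp [h0 p hp]
        rw [h9, card_empty, add_zero] at hcompl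
        rw [hcompl]
        have h10 : 8 * M ≤ (Ico k k').card * M := by omega
        have h11 : 8 ≤ (Ico k k').card := Nat.le_of_mul_le_mul_right h10 (by omega)
        omega
      · have h10 : 8 * M < (Ico k k').card * M := by omega
        have h11 : 8 < (Ico k k').card := Nat.lt_of_mul_lt_mul_right h10
        have h12 : ((Ico k k').filter (fun p => ¬ y p = 0)).card ≤ 2 := hy4
        omega
  · -- full8
    intro hmu
    rw [hkkb]
    have h8M := hfull hmu
    have hcardS : ∑ p ∈ Ico k k', min (b + 1) (μ p) ≤ (Ico k k').card * M := by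
      have := sum_le_card_nsmul (Ico k k') (fun p => min (b + 1) (μ p)) M
        (fun p _ => (min_le_right _ _).trans (hM p))
      rwa [smul_eq_mul] at this
    have h10 : 8 * M ≤ (Ico k k').card * M := by omega
    exact Nat.le_of_mul_le_mul_right h10 (by omega)

end Pool.Agent.Lib.MP_6b2d39_ag

namespace Pool.Agent.Lib.MP_6b2d39_agArr

open Pool.Agent.Lib.MP_6b2d39_ag Finset

/-- the greedy arrangement for concave capacities -/
theorem coreG {n M B : ℕ} (hM : 1 ≤ M) (hB : 2 * M + 1 ≤ B) (μ : ℕ → ℕ) (hanti : Antitone μ)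
    (hμ : ∀ p, μ p ≤ M) (s : ℕ → ℕ) (hpos : ∀ b < B, 1 ≤ s b)
    (hslope : ∀ b, b + 1 < B → s (b + 1) ≤ s b + 1)
    (hgap : ∀ b, b + 1 < B → 9 * M ^ 2 + M + M * s (b + 1) ≤ M * s b + s (b + 1))
    (htop : 8 * M ≤ s (B - 1))
    (hconc : ∀ b : ℕ, 1 ≤ b → b < M → Lam b (fun r => (s r : ℤ)) ≤ 2 * b)
    (hs : ∑ b ∈ Finset.range B, s b = ∑ p ∈ Finset.range n, (μ p + 1).choose 2) :
    ∃ t i : ℕ → ℕ, (∀ p < n, t p < B ∧ i p ≤ t p) ∧
      ∀ b < B, ∑ p ∈ Finset.range n, (μ p - MP_6b2d39_ag.rk (t p) (i p) b) = s b := by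
  have hs2 : ∀ e r, r + e < B → s (r + e) ≤ s r + e := by
    intro e
    induction e with
    | zero => intro r _; exact le_rfl
    | succ e ih =>
      intro r hr
      have h4 := ih r (by omega)
      have h5 := hslope (r + e) (by omega)
      rw [← add_assoc]
      omega
  have key : ∀ e b, b + e + 1 = B → ∃ kk t i, GInv n M B μ s b kk t i ∧ Full8 B μ b kk := by
    intro e
    induction e with
    | zero =>
      intro b hb
      refine ⟨fun _ => 0, fun _ => 0, fun _ => 0, ⟨rfl, ?_, Nat.zero_le _, ?_, ?_, ?_, ?_, ?_, ?_,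
        ?_, ?_⟩, ?_⟩
      · intro r hr hrB; omega
      · intro p; exact ⟨by omega, le_rfl⟩
      · intro r hr hrB; omega
      · intro p _; exact ⟨rfl, rfl⟩
      · intro r hr hrB; omega
      · intro r hr hrB; omega
      · intro r hr hrB; omega
      · intro r hr hrM; omega
      · intro r hr hrB; omega
      · intro r hr hrB; omega
    | succ e ih =>
      intro b hb
      obtain ⟨kk, t, i, h, h8⟩ := ih (b + 1) (by omega)
      have hsup := h.supplyG hμ (by omega) (by omega) (fun r hr => hpos r (by omega))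
        (fun r hr => by
          have := hs2 (b + 1 - r) r (by omega)
          rwa [Nat.add_sub_cancel' hr] at this) hs
      set cur := ∑ p ∈ range n, (μ p - MP_6b2d39_ag.rk (t p) (i p) (b + 1)) with hcur
      -- the missing amount is nonnegative (and large)
      have hcases : (μ (kk (b + 1)) ≤ b + 1 → cur + 8 * M ≤ s (b + 1)) ∧
          (b + 1 + 1 ≤ μ (kk (b + 1)) → cur + (b + 1) ≤ s (b + 1)) := by
        rcases Nat.lt_or_ge (b + 1 + 1) B with h4 | h4
        · refine ⟨fun h7 => ?_, fun h8' => ?_⟩
          · have h8' := h.directG hanti hμ h4 h7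
            rw [← hcur] at h8'
            have h9 := hgap (b + 1) h4
            have h10 : M * (cur + 8 * M) ≤ M * s (b + 1) := by
              have h11 : M * (cur + 8 * M) = M * cur + 8 * M ^ 2 := by ring
              rw [h11]
              have h12 : 9 * M ^ 2 = 8 * M ^ 2 + M ^ 2 := by ring
              omega
            exact Nat.le_of_mul_le_mul_left h10 (by omega)
          · have hbM : b + 1 < M := by
              have := hμ (kk (b + 1))
              omega
            exact h.mainG h8 hanti hμ hB (by omega) h8' (hconc (b + 1) (by omega) hbM) hs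
        · have h7 : B - 1 = b + 1 := by omega
          have h5 : cur = 0 := by
            apply sum_eq_zero
            intro p _
            have h6 := h.top
            rw [h7] at h6
            obtain ⟨h8', h9⟩ := h.un p (by omega)
            rw [h8', h9, rk_zero]
            have := hμ p
            omega
          rw [h7] at htop
          refine ⟨fun _ => by omega, fun _ => ?_⟩
          have := hμ (kk (b + 1))
          omega
      obtain ⟨hc1, hc2⟩ := hcases
      obtain ⟨kk', t', i', h1, h2, h3⟩ := h.stepG hanti hμ hM (by omega) (D := s (b + 1) - cur)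
        (by
          rcases Nat.lt_or_ge (b + 1) (μ (kk (b + 1))) with h9 | h9
          · have := hc2 h9
            omega
          · have := hc1 h9
            omega) (by omega)
        (by
          intro h4
          have h7 : min (b + 1) (μ (kk (b + 1))) ≤ b + 1 := min_le_left _ _
          have h8' : min (b + 1) (μ (kk (b + 1))) ≤ M := (min_le_right _ _).trans (hμ _)
          rcases Nat.lt_or_ge (b + 1) (μ (kk (b + 1))) with h9 | h9
          · have := hc2 h9
            omega
          · have := hc1 h9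
            omega)
        (by
          intro h5
          have := hc1 (by omega)
          omega)
      refine ⟨kk', t', i', h1, ?_⟩
      intro r hr hrB hmu
      rcases Nat.lt_or_ge (b + 1) r with h4 | h4
      · rw [h2 r hr] at hmu ⊢
        rw [h2 (r - 1) (by omega)]
        exact h8 r h4 hrB hmu
      · have hr' : r = b + 1 := by omega
        subst hr'
        rw [h2 _ hr] at hmu ⊢
        rw [Nat.add_sub_cancel]
        exact h3 hmu
  obtain ⟨kk, t, i, h, -⟩ := key (B - 1) 0 (by omega)
  refine ⟨t, i, fun p _ => h.bd p, ?_⟩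
  intro b hb
  rcases Nat.eq_zero_or_pos b with h0 | h0
  · subst h0
    have := h.mass hμ (by omega) (by omega) hs
    simpa using this
  · exact h.exact' b h0 hb

end Pool.Agent.Lib.MP_6b2d39_agArr
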