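import Pool.Agent.Lib.MP_6b2d39_ag.CoreD

/-!
The greedy arrangement for concave capacities: auxiliary estimates (compare `CoreC`, `CoreD`).
-/

namespace Pool.Agent.Lib.MP_6b2d39_ag

open Finset

section invG

variable {n M B : ℕ} {μ s : ℕ → ℕ} {b : ℕ} {kk t i : ℕ → ℕ}

theorem min_sum_le {ι : Type*} (J : Finset ι) (x : ℕ) (c : ι → ℕ) :
    min x (∑ p ∈ J, c p) ≤ ∑ p ∈ J, min x (c p) := by
  classical
  induction J using Finset.induction_on with
  | empty => simp
  | insert a J ha ih =>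
    rw [sum_insert ha, sum_insert ha]
    omega

theorem sum_tsub_reflect (m b : ℕ) :
    ∑ r ∈ range (b + 1), (m - (b - r)) = ∑ r ∈ range (b + 1), (m - r) := by
  rw [← sum_range_reflect]
  apply sum_congr rfl
  intro r hr
  rw [mem_range] at hr
  congr 1
  omega

/-- enough points are left -/
theorem GInv.supplyG (h : GInv n M B μ s b kk t i) (hM : ∀ p, μ p ≤ M) (hMB : M ≤ B) (hbB : b < B)
    (hpos : ∀ r ≤ b, 1 ≤ s r) (hslope : ∀ r ≤ b, s b ≤ s r + (b - r))
    (hs : ∑ b ∈ range B, s b = ∑ p ∈ range n, (μ p + 1).choose 2) :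
    s b ≤ ∑ p ∈ range n, (μ p - rk (t p) (i p) b) + ∑ p ∈ Ico (kk b) n, min b (μ p) := by
  by_contra hlt
  push Not at hlt
  have h1 := h.mass hM hMB hbB hs
  have hsplit : ∀ F : ℕ → ℕ, ∑ p ∈ range n, F p =
      ∑ p ∈ range (kk b), F p + ∑ p ∈ Ico (kk b) n, F p := by
    intro F
    rw [range_eq_Ico, range_eq_Ico, sum_Ico_consecutive _ (Nat.zero_le _) h.le]
  -- slices after the insertion of all the points at level `b`
  set C : ℕ → ℕ → ℕ := fun r p => if p < kk b then μ p - rk (t p) (i p) r else μ p - (b - r)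
    with hC
  have hmono : ∀ p r, r ≤ b → C r p + min (b - r) (C b p) ≤ C b p := by
    intro p r hr
    simp only [hC]
    by_cases hp : p < kk b
    · rw [if_pos hp, if_pos hp]
      obtain ⟨-, u, h6, h7, h8, h9⟩ := h.low_le hp hbB hr
      obtain ⟨h11, h12⟩ := h.lvl u h6 h7 p h8 h9
      have h13 := (h.bd p).2
      rw [h11] at h13 ⊢
      unfold rk
      split_ifs <;> omega
    · rw [if_neg hp, if_neg hp]
      omega
  have hsum : ∀ r, r ≤ b → ∑ p ∈ range n, C r p + min (b - r) (∑ p ∈ range n, C b p) ≤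
      ∑ p ∈ range n, C b p := by
    intro r hr
    refine (Nat.add_le_add_left (min_sum_le (range n) (b - r) (C b)) _).trans ?_
    rw [← sum_add_distrib]
    exact sum_le_sum fun p _ => hmono p r hr
  have hCb : ∑ p ∈ range n, C b p =
      ∑ p ∈ range n, (μ p - rk (t p) (i p) b) + ∑ p ∈ Ico (kk b) n, min b (μ p) := by
    rw [hsplit, hsplit (fun p => μ p - rk (t p) (i p) b), add_assoc, ← sum_add_distrib]
    congr 1
    · apply sum_congr rfl
      intro p hp
      rw [mem_range] at hp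
      simp only [hC, if_pos hp]
    · apply sum_congr rfl
      intro p hp
      rw [mem_Ico] at hp
      obtain ⟨h4, h5⟩ := h.un p hp.1
      simp only [hC]
      rw [if_neg (by omega), h4, h5, rk_zero]
      omega
  have hless : ∀ r ∈ range (b + 1), ∑ p ∈ range n, C r p < s r := by
    intro r hr
    rw [mem_range] at hr
    have h3 := hsum r (by omega)
    have h4 := hpos r (by omega)
    have h5 := hslope r (by omega)
    omega
  have htot : ∑ r ∈ range (b + 1), ∑ p ∈ range n, C r p = ∑ r ∈ range (b + 1), s r := by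
    rw [← h1, sum_comm, sum_comm (s := range (b + 1)) (t := range n)]
    apply sum_congr rfl
    intro p _
    by_cases hp : p < kk b
    · apply sum_congr rfl
      intro r _
      simp only [hC, if_pos hp]
    · obtain ⟨h4, h5⟩ := h.un p (by omega)
      simp only [hC, if_neg hp]
      rw [sum_tsub_reflect]
      apply sum_congr rfl
      intro r _
      rw [h4, h5, rk_zero]
  have := sum_lt_sum_of_nonempty (s := range (b + 1)) ⟨0, by simp⟩ hless
  omega

/-- the direct estimate when all the remaining points have multiplicity at most `b` -/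
theorem GInv.directG (h : GInv n M B μ s b kk t i) (hμ : Antitone μ) (hM : ∀ p, μ p ≤ M)
    (hb1 : b + 1 < B) (hb : μ (kk b) ≤ b) :
    M * ∑ p ∈ range n, (μ p - rk (t p) (i p) b) + s (b + 1) ≤ M * s (b + 1) + M ^ 2 + M := by
  have h1 := h.exact' (b + 1) (by omega) hb1
  have h2 := h.loss (b + 1) (by omega) hb1
  have hpart := h.part (b + 1) (by omega) hb1
  have h3 : kk (b + 1) ≤ kk b := by simpa using h.mono (b + 1) (by omega) hb1
  have hsplit : ∀ F : ℕ → ℕ, ∑ p ∈ range n, F p =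
      ∑ p ∈ range (kk (b + 1)), F p + ∑ p ∈ Ico (kk (b + 1)) (kk b), F p +
        ∑ p ∈ Ico (kk b) n, F p := by
    intro F
    rw [range_eq_Ico, range_eq_Ico, sum_Ico_consecutive _ (Nat.zero_le _) h3,
      sum_Ico_consecutive _ (Nat.zero_le _) h.le]
  rw [Nat.add_sub_cancel] at h2 hpart
  have hun : ∀ r, b ≤ r → ∑ p ∈ Ico (kk b) n, (μ p - rk (t p) (i p) r) = 0 := by
    intro r hr
    apply sum_eq_zero
    intro p hp
    rw [mem_Ico] at hp
    obtain ⟨h5, h6⟩ := h.un p hp.1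
    rw [h5, h6, rk_zero]
    have := hμ hp.1
    omega
  have h5 : M * ∑ p ∈ range (kk (b + 1)), (μ p - rk (t p) (i p) b) +
      ∑ p ∈ range (kk (b + 1)), (μ p - rk (t p) (i p) (b + 1)) ≤
      M * ∑ p ∈ range (kk (b + 1)), (μ p - rk (t p) (i p) (b + 1)) := by
    rw [mul_sum, mul_sum, ← sum_add_distrib]
    apply sum_le_sum
    intro p hp
    rw [mem_range] at hp
    obtain ⟨-, u, h6, h7, h8, h9⟩ := h.low_le (lt_of_lt_of_le hp h3) (by omega) (le_refl b)
    have h10 : u ≠ b + 1 := by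
      rintro rfl
      omega
    obtain ⟨h11, h12⟩ := h.lvl u h6 h7 p h8 h9
    have h13 := (h.bd p).2
    have h14 : μ p - rk (t p) (i p) (b + 1) = 0 ∧ μ p - rk (t p) (i p) b = 0 ∨
        μ p - rk (t p) (i p) b + 1 ≤ μ p - rk (t p) (i p) (b + 1) := by
      rw [h11] at h13 ⊢
      unfold rk
      split_ifs <;> omega
    have h15 := hM p
    rcases h14 with ⟨h16, h17⟩ | h16
    · rw [h16, h17]
      simp
    · have h17 := Nat.mul_le_mul_left M h16
      have h18 : μ p - rk (t p) (i p) (b + 1) ≤ M := by omega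
      rw [mul_add, mul_one] at h17
      omega
  have h6 : M * ∑ p ∈ Ico (kk (b + 1)) (kk b), (μ p - rk (t p) (i p) b) +
      ∑ p ∈ Ico (kk (b + 1)) (kk b), (μ p - rk (t p) (i p) (b + 1)) ≤
      M * ∑ p ∈ Ico (kk (b + 1)) (kk b), (μ p - rk (t p) (i p) (b + 1)) +
        M * ∑ p ∈ Ico (kk (b + 1)) (kk b), (b + 1 - i p) +
        M * ((Ico (kk (b + 1)) (kk b)).filter (fun p => b + 1 - i p ≠ 0)).card := by
    rw [card_filter, mul_sum, mul_sum, mul_sum, mul_sum, ← sum_add_distrib, ← sum_add_distrib,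
      ← sum_add_distrib]
    apply sum_le_sum
    intro p hp
    rw [mem_Ico] at hp
    obtain ⟨h11, h12⟩ := h.lvl (b + 1) (by omega) hb1 p hp.1 (by simpa using hp.2)
    have h13 := (h.bd p).2
    have h15 := hM p
    rw [lt_min_iff] at h12
    by_cases h0 : b + 1 - i p = 0
    · rw [if_neg (by simpa using h0), h0, mul_zero, add_zero, add_zero]
      have h16 : μ p - rk (t p) (i p) b + 1 ≤ μ p - rk (t p) (i p) (b + 1) := by
        rw [h11] at h13 ⊢
        unfold rk
        split_ifs <;> omega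
      have h17 := Nat.mul_le_mul_left M h16
      have h18 : μ p - rk (t p) (i p) (b + 1) ≤ M := by omega
      rw [mul_add, mul_one] at h17
      omega
    · rw [if_pos (by simpa using h0), mul_one, ← mul_add]
      have h16 : μ p - rk (t p) (i p) b ≤
          μ p - rk (t p) (i p) (b + 1) + (b + 1 - i p) := by
        rw [h11] at h13 ⊢
        unfold rk
        split_ifs <;> omega
      have h17 := Nat.mul_le_mul_left M h16
      have h18 : μ p - rk (t p) (i p) (b + 1) ≤ M := by omega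
      omega
  rw [hsplit] at h1 ⊢
  rw [hun b le_rfl]
  rw [hun (b + 1) (by omega)] at h1
  have h7 : M * ∑ p ∈ Ico (kk (b + 1)) (kk b), (b + 1 - i p) ≤ M * (M - 1) := by
    apply Nat.mul_le_mul_left
    have : min (b + 1) M ≤ M := min_le_right _ _
    omega
  have h8 : M * ((Ico (kk (b + 1)) (kk b)).filter (fun p => b + 1 - i p ≠ 0)).card ≤ M * 2 :=
    Nat.mul_le_mul_left M hpart
  have h9 : M * (M - 1) + M * 2 ≤ M ^ 2 + M := by
    rcases Nat.eq_zero_or_pos M with h10 | h10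
    · subst h10; simp
    · obtain ⟨M', rfl⟩ := Nat.exists_eq_add_of_le' h10
      rw [Nat.add_sub_cancel]
      ring_nf
      omega
  rw [add_zero] at h1
  rw [← h1, add_zero, mul_add, mul_add]
  omega

theorem GInv.crossingG (h : GInv n M B μ s b kk t i) (hμ : Antitone μ) (hM : ∀ p, μ p ≤ M)
    (hB : 2 * M + 1 ≤ B) (hb : b + 1 ≤ μ (kk b)) {j : ℕ} (hj : 1 ≤ j) (hjb : j ≤ b) :
    ∃ u, b + 2 ≤ u ∧ u < B ∧ μ (kk u) + j = u ∧ μ (kk (u - 1)) = μ (kk u) := by
  have hMb := hM (kk b)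
  have hP : ∃ u, b ≤ u ∧ u < B ∧ μ (kk u) + j ≤ u := by
    refine ⟨B - 1, by omega, by omega, ?_⟩
    have := hM (kk (B - 1))
    omega
  classical
  obtain ⟨u, ⟨h1, h2, h3⟩, hmin⟩ : ∃ u, (b ≤ u ∧ u < B ∧ μ (kk u) + j ≤ u) ∧
      ∀ v < u, ¬ (b ≤ v ∧ v < B ∧ μ (kk v) + j ≤ v) :=
    ⟨Nat.find hP, Nat.find_spec hP, fun v hv => Nat.find_min hP hv⟩
  have h4 : u ≠ b := by
    rintro rfl
    omega
  have h5 : b < u := lt_of_le_of_ne h1 (Ne.symm h4)
  have h6 := hmin (u - 1) (by omega)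
  have h7 : ¬ (μ (kk (u - 1)) + j ≤ u - 1) := fun h7 => h6 ⟨by omega, by omega, h7⟩
  have h8 : μ (kk (u - 1)) ≤ μ (kk u) := hμ (h.mono u h5 h2)
  have h9 : u ≠ b + 1 := by
    rintro rfl
    rw [Nat.add_sub_cancel] at h7 h8
    omega
  refine ⟨u, by omega, by omega, by omega, by omega⟩

/-- number of points inserted at the levels -/
def Full8 (B : ℕ) (μ : ℕ → ℕ) (b : ℕ) (kk : ℕ → ℕ) : Prop :=
  ∀ r, b < r → r < B → μ (kk r) < r → 8 ≤ (Ico (kk r) (kk (r - 1))).card

theorem GInv.level_boundG (h : GInv n M B μ s b kk t i) (h8 : Full8 B μ b kk) (hμ : Antitone μ)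
    (hM : ∀ p, μ p ≤ M) (hbM : b < M) {u : ℕ} (hu : b + 2 ≤ u) (huB : u < B) :
    -(if u ≤ 2 * b then 4 * (b : ℤ) else 0) ≤
      ∑ p ∈ Ico (kk u) (kk (u - 1)), Lam b (fun r => ((μ p - rk (t p) (i p) r : ℕ) : ℤ)) ∧
    (∀ j : ℕ, j ≤ b → 1 ≤ j → μ (kk u) + j = u → μ (kk (u - 1)) = μ (kk u) →
      -(if u ≤ 2 * b then 4 * (b : ℤ) else 0) + 8 * ((j : ℤ) * (j + 1)) ≤
      ∑ p ∈ Ico (kk u) (kk (u - 1)), Lam b (fun r => ((μ p - rk (t p) (i p) r : ℕ) : ℤ))) := by
  set P := Ico (kk u) (kk (u - 1)) with hP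
  have hpt : ∀ p ∈ P, (if i p ≤ b then -(2 * (b : ℤ)) else 0) +
      Lam b (fun r => ((μ p - (u - r) : ℕ) : ℤ)) ≤
      Lam b (fun r => ((μ p - rk (t p) (i p) r : ℕ) : ℤ)) := by
    intro p hp
    rw [hP, mem_Ico] at hp
    obtain ⟨h1, h2⟩ := h.lvl u (by omega) huB p hp.1 hp.2
    have h3 := (h.bd p).2
    rw [h1] at h3 ⊢
    exact Lam_high hu (by omega) h3
  have hsum : ∑ p ∈ P, (if i p ≤ b then -(2 * (b : ℤ)) else 0) +
      ∑ p ∈ P, Lam b (fun r => ((μ p - (u - r) : ℕ) : ℤ)) ≤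
      ∑ p ∈ P, Lam b (fun r => ((μ p - rk (t p) (i p) r : ℕ) : ℤ)) := by
    rw [← sum_add_distrib]
    exact sum_le_sum hpt
  have hneg : -(if u ≤ 2 * b then 4 * (b : ℤ) else 0) ≤
      ∑ p ∈ P, (if i p ≤ b then -(2 * (b : ℤ)) else 0) := by
    rw [← sum_filter, sum_const, nsmul_eq_mul]
    have hcard : (P.filter (fun p => i p ≤ b)).card ≤ 2 := by
      refine (card_le_card ?_).trans (h.part u (by omega) huB)
      intro p hp
      rw [mem_filter] at hp ⊢
      exact ⟨hp.1, by omega⟩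
    split_ifs with h1
    · have h2 : ((P.filter (fun p => i p ≤ b)).card : ℤ) ≤ 2 := by exact_mod_cast hcard
      have h3 : (0 : ℤ) ≤ b := by positivity
      nlinarith
    · have h2 : P.filter (fun p => i p ≤ b) = ∅ := by
        rw [filter_eq_empty_iff]
        intro p hp
        rw [hP, mem_Ico] at hp
        rcases Nat.lt_or_ge u (2 * M) with h3 | h3
        · have := h.half u (by omega) h3 p hp.1 hp.2
          omega
        · obtain ⟨h4, h5⟩ := h.lvl u (by omega) huB p hp.1 hp.2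
          have := hM p
          omega
      rw [h2]
      simp
  have hfull : ∀ p ∈ P, 0 ≤ Lam b (fun r => ((μ p - (u - r) : ℕ) : ℤ)) := fun p _ =>
    Lam_full (μ p) (by omega)
  refine ⟨?_, ?_⟩
  · have := sum_nonneg hfull
    linarith
  · intro j hjb hj1 hj2 hj3
    have h1 : ∀ p ∈ P, Lam b (fun r => ((μ p - (u - r) : ℕ) : ℤ)) = (j : ℤ) * (j + 1) := by
      intro p hp
      rw [hP, mem_Ico] at hp
      have h2 : μ p = μ (kk u) := by
        have h3 := hμ hp.1
        have h4 : μ (kk (u - 1)) ≤ μ p := hμ (le_of_lt hp.2)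
        omega
      rw [h2]
      exact Lam_source hu hj2 hjb
    rw [sum_congr rfl h1, sum_const, nsmul_eq_mul] at hsum
    have h3 := h8 u (by omega) huB (by omega)
    have h4 : (8 : ℤ) ≤ P.card := by exact_mod_cast h3
    have h5 : (0 : ℤ) ≤ (j : ℤ) * (j + 1) := by positivity
    nlinarith

/-- the main inequality -/
theorem GInv.mainG (h : GInv n M B μ s b kk t i) (h8 : Full8 B μ b kk) (hμ : Antitone μ)
    (hM : ∀ p, μ p ≤ M) (hB : 2 * M + 1 ≤ B) (hb1 : 1 ≤ b) (hb : b + 1 ≤ μ (kk b))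
    (hconc : Lam b (fun r => (s r : ℤ)) ≤ 2 * b)
    (hs : ∑ b ∈ range B, s b = ∑ p ∈ range n, (μ p + 1).choose 2) :
    ∑ p ∈ range n, (μ p - rk (t p) (i p) b) + b ≤ s b := by
  have hbM : b < M := by have := hM (kk b); omega
  have hsL := sum_Lam h hM (by omega) (by omega) hs
  -- lower bound of the sum
  set L : ℕ → ℤ := fun p => Lam b (fun r => ((μ p - rk (t p) (i p) r : ℕ) : ℤ)) with hL
  have hsplit : ∑ p ∈ range n, L p = ∑ p ∈ range (kk b), L p + ∑ p ∈ Ico (kk b) n, L p := by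
    rw [range_eq_Ico, range_eq_Ico, sum_Ico_consecutive _ (Nat.zero_le _) h.le]
  have hun : 0 ≤ ∑ p ∈ Ico (kk b) n, L p := by
    apply sum_nonneg
    intro p hp
    rw [mem_Ico] at hp
    obtain ⟨h4, h5⟩ := h.un p hp.1
    simp only [hL, h4, h5, rk_zero]
    exact Lam_un b (μ p)
  have hlev := h.sum_levels L (B - 1 - b) b (by omega) le_rfl
  rw [sum_eq_sum_Ico_succ_bot (by omega : b + 1 < B), Nat.add_sub_cancel] at hlev
  have hfront := h.front_bound (μ := μ) hb1 (by omega : b + 1 < B)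
  -- the levels above
  classical
  choose! U hU using fun (j : ℕ) (hj : j ∈ Icc 1 b) =>
    h.crossingG hμ hM hB hb (mem_Icc.1 hj).1 (mem_Icc.1 hj).2
  let J : ℕ → ℤ := fun u => if u ∈ (Icc 1 b).image U then
    8 * (((u - μ (kk u) : ℕ) : ℤ) * (((u - μ (kk u) : ℕ) : ℤ) + 1)) else 0
  have hlevel : ∀ u ∈ Ico (b + 2) B, -(if u ≤ 2 * b then 4 * (b : ℤ) else 0) + J u ≤
      ∑ p ∈ Ico (kk u) (kk (u - 1)), L p := by
    intro u hu
    rw [mem_Ico] at hu
    obtain ⟨h5, h6⟩ := h.level_boundG h8 hμ hM hbM hu.1 hu.2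
    by_cases h7 : u ∈ (Icc 1 b).image U
    · have h7' := h7
      rw [mem_image] at h7
      obtain ⟨j, hj, hju⟩ := h7
      have h9 := hU j hj
      rw [hju] at h9
      have h10 : u - μ (kk u) = j := by omega
      have h11 := h6 j (mem_Icc.1 hj).2 (mem_Icc.1 hj).1 h9.2.2.1 h9.2.2.2
      simp only [J, if_pos h7', h10]
      exact h11
    · simp only [J, if_neg h7, add_zero]
      exact h5
  have hlevels := sum_le_sum hlevel
  rw [sum_add_distrib] at hlevels
  have hJ : 8 * ∑ j ∈ Icc 1 b, ((j : ℤ) * (j + 1)) ≤ ∑ u ∈ Ico (b + 2) B, J u := by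
    have h5 : ∑ u ∈ (Icc 1 b).image U, J u ≤ ∑ u ∈ Ico (b + 2) B, J u := by
      apply sum_le_sum_of_subset_of_nonneg
      · intro u hu
        rw [mem_image] at hu
        obtain ⟨j, hj, rfl⟩ := hu
        have h9 := hU j hj
        rw [mem_Ico]
        omega
      · intro u _ _
        simp only [J]
        split_ifs
        · positivity
    rw [sum_image] at h5
    · refine le_trans (le_of_eq ?_) h5
      rw [mul_sum]
      apply sum_congr rfl
      intro j hj
      have h9 := hU j hj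
      have h10 : U j - μ (kk (U j)) = j := by omega
      simp only [J]
      rw [if_pos (mem_image_of_mem U hj), h10]
    · intro j hj j' hj' hjj
      have h9 := hU j hj
      have h9' := hU j' hj'
      rw [hjj] at h9
      omega
  have hneg : -(4 * (b : ℤ) * (b - 1)) ≤
      ∑ u ∈ Ico (b + 2) B, -(if u ≤ 2 * b then 4 * (b : ℤ) else 0) := by
    rw [sum_neg_distrib, ← sum_filter, sum_const, nsmul_eq_mul, neg_le_neg_iff]
    have h5 : ((Ico (b + 2) B).filter (fun u => u ≤ 2 * b)).card ≤ b - 1 := by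
      have : (Ico (b + 2) B).filter (fun u => u ≤ 2 * b) ⊆ Ico (b + 2) (2 * b + 1) := by
        intro u hu
        rw [mem_filter, mem_Ico] at hu
        rw [mem_Ico]
        omega
      refine (card_le_card this).trans ?_
      rw [Nat.card_Ico]
      omega
    have h6 : (((Ico (b + 2) B).filter (fun u => u ≤ 2 * b)).card : ℤ) ≤ b - 1 := by
      have : ((b - 1 : ℕ) : ℤ) = b - 1 := by
        rw [Nat.cast_sub hb1]
        simp
      rw [← this]
      exact_mod_cast h5
    have h7 : (0 : ℤ) ≤ 4 * b := by positivity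
    nlinarith
  have hpron := sum_pronic b
  -- conclusion
  set cur := ∑ p ∈ range n, (μ p - rk (t p) (i p) b) with hcur
  have hfin : ((b : ℤ) + 1) * (b + 2) * ((s b : ℤ) - cur) =
      ∑ p ∈ range n, L p - Lam b (fun r => (s r : ℤ)) := by
    rw [hsL]
    unfold Lam
    ring
  have hlow : -(((b : ℤ) + 2) * (b - 1) * b) - 2 * ((b + 1) * (b + 2)) - 4 * b * (b - 1) +
      8 * ∑ j ∈ Icc 1 b, ((j : ℤ) * (j + 1)) ≤ ∑ p ∈ range n, L p := by
    rw [hsplit, hlev]
    have h5 : (fun p => L p) = L := rfl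
    linarith
  have hb' : (1 : ℤ) ≤ b := by exact_mod_cast hb1
  have hkey : ((b : ℤ) + 1) * (b + 2) * ((b : ℤ) - 1) <
      ((b : ℤ) + 1) * (b + 2) * ((s b : ℤ) - cur) := by
    rw [hfin]
    have h5 : 0 < 2 * (b : ℤ) ^ 3 - 3 * b ^ 2 + 13 * b - 6 := by
      nlinarith [sq_nonneg ((b : ℤ) - 1), mul_nonneg (by linarith : (0 : ℤ) ≤ b - 1)
        (sq_nonneg (b : ℤ))]
    nlinarith
  have h5 : (b : ℤ) - 1 < (s b : ℤ) - cur := lt_of_mul_lt_mul_left hkey (by positivity)
  have h6 : (b : ℤ) + cur ≤ s b := by linarith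
  have h7 : b + cur ≤ s b := by exact_mod_cast h6
  omega

end invG

end Pool.Agent.Lib.MP_6b2d39_ag
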